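import Pool.Agent.Helper58.Qip.Tight
import Pool.Agent.Helper84.Qip.StmtD

set_option autoImplicit false
set_option linter.unusedSectionVars false

/-!
Almost every environment is typical.
-/

open MeasureTheory ProbabilityTheory Filter Topology
open scoped ENNReal NNReal

namespace Pool.Agent.Helper58.Qip

variable {d : ℕ}

lemma measurable_Phi (i : Fin d) (e : Dir d) : Measurable fun ω => Phi i ω e := by
  unfold Phi
  exact ((measurable_from_top (f := fun n : ℕ => (n : ℝ))).comp
    (Pool.Agent.Helper84.Qip.measurable_hop e)).mul_const _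

lemma measurable_hopf (e : Dir d) : Measurable fun ω => hopf ω e :=
  (measurable_from_top (f := fun n : ℕ => (n : ℝ))).comp
    (Pool.Agent.Helper84.Qip.measurable_hop e)

lemma integrable_hopf_sq {P : Measure (Conf d)} (e : Dir d) {ε : ℝ} (hε : 0 ≤ ε)
    (h : ∫⁻ ω, ENNReal.ofReal ((hop e ω : ℝ) ^ (2 + ε)) ∂P < ⊤) :
    Integrable (fun ω => hopf ω e ^ 2) P := by
  refine ⟨((measurable_hopf e).pow_const 2).aestronglyMeasurable, ?_⟩
  rw [hasFiniteIntegral_iff_ofReal (Eventually.of_forall fun ω => sq_nonneg _)]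
  refine lt_of_le_of_lt (lintegral_mono fun ω => ?_) h
  apply ENNReal.ofReal_le_ofReal
  unfold hopf
  rcases Nat.eq_zero_or_pos (hop e ω) with h0 | h0
  · rw [h0]
    simp only [Nat.cast_zero, ne_eq, OfNat.ofNat_ne_zero, not_false_eq_true, zero_pow]
    exact Real.rpow_nonneg le_rfl _
  · have h1 : (1 : ℝ) ≤ (hop e ω : ℝ) := by exact_mod_cast h0
    rw [← Real.rpow_natCast]
    exact Real.rpow_le_rpow_of_exponent_le h1 (by push_cast; linarith)

lemma integrable_Phi_sq {P : Measure (Conf d)} (i : Fin d) (e : Dir d)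
    (h : Integrable (fun ω => hopf ω e ^ 2) P) : Integrable (fun ω => Phi i ω e ^ 2) P := by
  have : (fun ω => Phi i ω e ^ 2) = fun ω => ((unit e i : ℤ) : ℝ) ^ 2 * hopf ω e ^ 2 := by
    funext ω
    unfold Phi hopf
    ring
  rw [this]
  exact h.const_mul _

lemma integrable_mul_of_sq {P : Measure (Conf d)} {f g : Conf d → ℝ} (hf : Measurable f)
    (hg : Measurable g) (hf2 : Integrable (fun ω => f ω ^ 2) P)
    (hg2 : Integrable (fun ω => g ω ^ 2) P) : Integrable (fun ω => f ω * g ω) P := by
  refine ((hf2.add hg2).mono' (hf.mul hg).aestronglyMeasurable (Eventually.of_forall fun ω => ?_))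
  rw [Real.norm_eq_abs, abs_mul]
  simp only [Pi.add_apply]
  nlinarith [sq_nonneg (|f ω| - |g ω|), sq_abs (f ω), sq_abs (g ω), abs_nonneg (f ω),
    abs_nonneg (g ω)]

section energy

variable {P : Measure (Conf d)} {g : Conf d → Dir d → ℝ} (hg : ∀ e, Measurable fun ω => g ω e)
  (hg2 : ∀ e, Integrable (fun ω => g ω e ^ 2) P)

include hg in
lemma measurable_energy : Measurable (energy g) := by
  unfold energy
  exact (Finset.measurable_sum _ fun e _ => (hg e).pow_const 2).div_const _

include hg2 in
lemma integrable_energy : Integrable (energy g) P := by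
  unfold energy
  exact (integrable_finsetSum _ fun e _ => hg2 e).div_const _

end energy

section covf

variable {P : Measure (Conf d)} {Ψ : Fin d → Conf d → Dir d → ℝ}
  (hΨ : ∀ a e, Measurable fun ω => Ψ a ω e)
  (hΨ2 : ∀ a e, Integrable (fun ω => Ψ a ω e ^ 2) P)

include hΨ in
lemma measurable_covf (a b : Fin d) : Measurable (covf Ψ a b) := by
  unfold covf
  exact (Finset.measurable_sum _ fun e _ => (hΨ a e).mul (hΨ b e)).div_const _

include hΨ hΨ2 in
lemma integrable_covf (a b : Fin d) : Integrable (covf Ψ a b) P := by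
  unfold covf
  exact (integrable_finsetSum _ fun e _ => integrable_mul_of_sq (hΨ a e) (hΨ b e)
    (hΨ2 a e) (hΨ2 b e)).div_const _

include hΨ in
lemma measurable_rho (e : Dir d) : Measurable fun ω => rho Ψ ω e := by
  unfold rho
  exact Finset.measurable_sum _ fun a _ => (hΨ a e).abs

include hΨ in
lemma measurable_Lam (L : ℕ) : Measurable (Lam Ψ L) := by
  unfold Lam
  refine (Finset.measurable_sum _ fun e _ => ?_).div_const _
  exact Measurable.ite (measurableSet_le measurable_const (measurable_rho hΨ e))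
    ((measurable_rho hΨ e).pow_const 2) measurable_const

include hΨ hΨ2 in
lemma integrable_rho_sq (e : Dir d) : Integrable (fun ω => rho Ψ ω e ^ 2) P := by
  refine Integrable.mono' (g := fun ω => (d : ℝ) * ∑ a, Ψ a ω e ^ 2) ?_
    ((measurable_rho hΨ e).pow_const 2).aestronglyMeasurable (Eventually.of_forall fun ω => ?_)
  · exact (integrable_finsetSum _ fun a _ => hΨ2 a e).const_mul _
  · rw [Real.norm_of_nonneg (sq_nonneg _)]
    unfold rho
    have := sq_sum_le_card_mul_sum_sq (s := (Finset.univ : Finset (Fin d)))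
      (f := fun a => |Ψ a ω e|)
    simpa using this

lemma Lam_le (L : ℕ) (ω : Conf d) :
    Lam Ψ L ω ≤ (∑ e, rho Ψ ω e ^ 2) / (Fintype.card (Dir d) : ℝ) := by
  unfold Lam
  refine div_le_div_of_nonneg_right (Finset.sum_le_sum fun e _ => ?_) (Nat.cast_nonneg _)
  split_ifs
  · exact le_rfl
  · positivity

lemma Lam_nonneg' (L : ℕ) (ω : Conf d) : 0 ≤ Lam Ψ L ω := by
  unfold Lam
  refine div_nonneg (Finset.sum_nonneg fun e _ => ?_) (Nat.cast_nonneg _)
  split_ifs
  · positivity
  · exact le_rfl

include hΨ hΨ2 in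
lemma integrable_Lam (L : ℕ) : Integrable (Lam Ψ L) P := by
  refine Integrable.mono' (g := fun ω => (∑ e, rho Ψ ω e ^ 2) / (Fintype.card (Dir d) : ℝ)) ?_
    (measurable_Lam hΨ L).aestronglyMeasurable (Eventually.of_forall fun ω => ?_)
  · exact (integrable_finsetSum _ fun e _ => integrable_rho_sq hΨ hΨ2 e).div_const _
  · rw [Real.norm_of_nonneg (Lam_nonneg' L ω)]
    exact Lam_le L ω

include hΨ hΨ2 in
lemma tendsto_Lam : Tendsto (fun L : ℕ => ∫ ω, Lam Ψ L ω ∂P) atTop (𝓝 0) := by
  have h0 : (0 : ℝ) = ∫ _ω : Conf d, (0 : ℝ) ∂P := by simp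
  rw [h0]
  refine tendsto_integral_of_dominated_convergence
    (fun ω => (∑ e, rho Ψ ω e ^ 2) / (Fintype.card (Dir d) : ℝ))
    (fun L => (measurable_Lam hΨ L).aestronglyMeasurable)
    ((integrable_finsetSum _ fun e _ => integrable_rho_sq hΨ hΨ2 e).div_const _)
    (fun L => Eventually.of_forall fun ω => ?_) (Eventually.of_forall fun ω => ?_)
  · rw [Real.norm_of_nonneg (Lam_nonneg' L ω)]
    exact Lam_le L ω
  · refine tendsto_const_nhds.congr' ?_
    have h1 : ∀ᶠ L : ℕ in atTop, ∀ e, rho Ψ ω e < L := by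
      rw [eventually_all]
      intro e
      exact tendsto_natCast_atTop_atTop.eventually_gt_atTop _
    filter_upwards [h1] with L hL
    unfold Lam
    rw [Finset.sum_eq_zero, zero_div]
    intro e _
    rw [if_neg (not_le.2 (hL e))]

include hΨ hΨ2 in
lemma posSemidef_cov : (Matrix.of fun a b => ∫ ω, covf Ψ a b ω ∂P).PosSemidef := by
  refine Matrix.PosSemidef.of_dotProduct_mulVec_nonneg ?_ ?_
  · ext a b
    simp only [Matrix.conjTranspose_apply, Matrix.of_apply, star_trivial]
    refine integral_congr_ae (Eventually.of_forall fun ω => ?_)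
    simp only [covf]
    congr 1
    refine Finset.sum_congr rfl fun e _ => mul_comm _ _
  · intro x
    have h1 : star x ⬝ᵥ (Matrix.of fun a b => ∫ ω, covf Ψ a b ω ∂P).mulVec x =
        ∫ ω, (∑ e, (∑ a, x a * Ψ a ω e) ^ 2) / (Fintype.card (Dir d) : ℝ) ∂P := by
      have h2 : ∀ ω, (∑ e, (∑ a, x a * Ψ a ω e) ^ 2) / (Fintype.card (Dir d) : ℝ) =
          ∑ a, ∑ b, x a * x b * covf Ψ a b ω := by
        intro ω
        have h3 : ∀ e, (∑ a, x a * Ψ a ω e) ^ 2 =
            ∑ a, ∑ b, x a * x b * (Ψ a ω e * Ψ b ω e) := by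
          intro e
          rw [sq, Finset.sum_mul_sum]
          refine Finset.sum_congr rfl fun a _ => Finset.sum_congr rfl fun b _ => by ring
        simp only [h3]
        rw [Finset.sum_comm, Finset.sum_div]
        refine Finset.sum_congr rfl fun a _ => ?_
        rw [Finset.sum_comm, Finset.sum_div]
        refine Finset.sum_congr rfl fun b _ => ?_
        unfold covf
        rw [← Finset.mul_sum, mul_div_assoc]
      simp only [h2]
      rw [integral_finsetSum _ fun a _ => integrable_finsetSum _ fun b _ =>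
        (integrable_covf hΨ hΨ2 a b).const_mul _]
      simp only [dotProduct, Matrix.mulVec, Matrix.of_apply, star_trivial, Pi.star_apply]
      refine Finset.sum_congr rfl fun a _ => ?_
      rw [integral_finsetSum _ fun b _ => (integrable_covf hΨ hΨ2 a b).const_mul _,
        Finset.mul_sum]
      refine Finset.sum_congr rfl fun b _ => ?_
      rw [integral_const_mul]
      ring
    rw [h1]
    exact integral_nonneg fun ω => div_nonneg (Finset.sum_nonneg fun e _ => sq_nonneg _)
      (Nat.cast_nonneg _)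

end covf

end Pool.Agent.Helper58.Qip
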