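import Pool.Agent.Helper58.Qip.Defs

set_option autoImplicit false

/-!
Basic geometry of the graph on a configuration, and the abstract labelled graphs.
-/

open MeasureTheory ProbabilityTheory Filter Topology
open scoped ENNReal NNReal

namespace Pool.Agent.Helper58.Qip

/-! ### Geometry -/

@[simp] lemma flip_flip {d : ℕ} (e : Dir d) : flip (flip e) = e := by
  simp [flip]

lemma unit_flip {d : ℕ} (e : Dir d) : unit (flip e) = - unit e := by
  rcases e with ⟨i, b⟩
  cases b <;> simp [unit, flip, ← Pi.single_neg]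

lemma unit_ne_zero {d : ℕ} (e : Dir d) : unit e ≠ 0 := by
  intro h
  have := congrFun h e.1
  rcases e with ⟨i, b⟩
  cases b <;> simp [unit] at this

lemma smul_unit_inj {d : ℕ} (e : Dir d) {a b : ℤ} (h : a • unit e = b • unit e) : a = b := by
  have := congrFun h e.1
  rcases e with ⟨i, c⟩
  cases c <;> simpa [unit] using this

@[simp] lemma shift_zero {d : ℕ} (ω : Conf d) : shift 0 ω = ω := by
  funext y; simp [shift]

lemma shift_shift {d : ℕ} (x y : Site d) (ω : Conf d) : shift x (shift y ω) = shift (y + x) ω := by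
  funext z; simp [shift, add_assoc]

@[simp] lemma shift_apply {d : ℕ} (x y : Site d) (ω : Conf d) : shift x ω y = ω (x + y) := rfl

lemma measurable_shift {d : ℕ} (x : Site d) : Measurable (shift (d := d) x) :=
  measurable_pi_lambda _ fun y => measurable_pi_apply (x + y)

/-- A configuration is good at `v` if there is a next point in every direction. -/
def GoodAt {d : ℕ} (ω : Conf d) (v : Site d) : Prop :=
  ∀ e : Dir d, ∃ k : ℕ, 0 < k ∧ ω (v + (k : ℤ) • unit e) = true

/-- A configuration is good if every occupied site has a next point in every direction. -/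
def Good {d : ℕ} (ω : Conf d) : Prop := ∀ v, ω v = true → GoodAt ω v

lemma hop_spec {d : ℕ} {ω : Conf d} {v : Site d} (h : GoodAt ω v) (e : Dir d) :
    0 < hop e (shift v ω) ∧ ω (v + (hop e (shift v ω) : ℤ) • unit e) = true :=
  Nat.sInf_mem (s := {k : ℕ | 0 < k ∧ shift v ω ((k : ℤ) • unit e) = true}) (h e)

lemma hop_min {d : ℕ} {ω : Conf d} {v : Site d} (e : Dir d) {k : ℕ} (hk : 0 < k)
    (h : ω (v + (k : ℤ) • unit e) = true) : hop e (shift v ω) ≤ k :=
  Nat.sInf_le (s := {k : ℕ | 0 < k ∧ shift v ω ((k : ℤ) • unit e) = true}) ⟨hk, h⟩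

lemma hop_eq {d : ℕ} {ω : Conf d} {v : Site d} (e : Dir d) {k : ℕ} (hk : 0 < k)
    (h : ω (v + (k : ℤ) • unit e) = true)
    (h' : ∀ j : ℕ, 0 < j → j < k → ω (v + (j : ℤ) • unit e) = false) :
    hop e (shift v ω) = k := by
  apply le_antisymm (hop_min e hk h)
  by_contra hlt
  push Not at hlt
  have hg : ∃ j : ℕ, 0 < j ∧ shift v ω ((j : ℤ) • unit e) = true := ⟨k, hk, h⟩
  have := Nat.sInf_mem (s := {k : ℕ | 0 < k ∧ shift v ω ((k : ℤ) • unit e) = true}) hg
  have h2 := h' _ this.1 hlt
  have h3 : ω (v + (hop e (shift v ω) : ℤ) • unit e) = true := this.2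
  have h2' : ω (v + (hop e (shift v ω) : ℤ) • unit e) = false := h2
  rw [h3] at h2'
  exact absurd h2' (by simp)

lemma nxt_occ {d : ℕ} {ω : Conf d} {v : Site d} (h : GoodAt ω v) (e : Dir d) :
    ω (nxt ω v e) = true := (hop_spec h e).2

lemma nxt_eq {d : ℕ} (ω : Conf d) (v : Site d) (e : Dir d) :
    nxt ω v e = v + (hop e (shift v ω) : ℤ) • unit e := rfl

lemma hop_nxt {d : ℕ} {ω : Conf d} {v : Site d} (hv : ω v = true) (h : GoodAt ω v) (e : Dir d) :
    hop (flip e) (shift (nxt ω v e) ω) = hop e (shift v ω) := by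
  have hs := hop_spec h e
  apply hop_eq (flip e) hs.1
  · rw [unit_flip, nxt_eq]
    simpa using hv
  · intro j hj hjk
    rw [unit_flip, nxt_eq]
    have h1 : v + (hop e (shift v ω) : ℤ) • unit e + (j : ℤ) • -unit e
        = v + ((hop e (shift v ω) - j : ℕ) : ℤ) • unit e := by
      rw [Nat.cast_sub hjk.le, sub_smul, smul_neg]; abel
    rw [h1]
    by_contra hc
    have hc' : ω (v + ((hop e (shift v ω) - j : ℕ) : ℤ) • unit e) = true := by
      simpa using hc
    have := hop_min e (by omega) hc'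
    omega

lemma nxt_nxt {d : ℕ} {ω : Conf d} {v : Site d} (hv : ω v = true) (h : GoodAt ω v) (e : Dir d) :
    nxt ω (nxt ω v e) (flip e) = v := by
  rw [nxt_eq ω (nxt ω v e), hop_nxt hv h e, unit_flip, nxt_eq]
  simp

/-- The environment seen from the next point in direction `e`. -/
noncomputable def sig {d : ℕ} (e : Dir d) (ω : Conf d) : Conf d :=
  shift ((hop e ω : ℤ) • unit e) ω

lemma sig_shift {d : ℕ} (ω : Conf d) (v : Site d) (e : Dir d) :
    sig e (shift v ω) = shift (nxt ω v e) ω := by
  rw [sig, shift_shift, nxt_eq]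

lemma goodAt_shift {d : ℕ} {ω : Conf d} {v w : Site d} (h : GoodAt ω (v + w)) :
    GoodAt (shift v ω) w := by
  intro e
  obtain ⟨k, hk, hk'⟩ := h e
  exact ⟨k, hk, by simpa [add_assoc] using hk'⟩

lemma good_shift {d : ℕ} {ω : Conf d} (h : Good ω) (v : Site d) : Good (shift v ω) := by
  intro w hw
  exact goodAt_shift (h _ hw)

lemma sig_flip_sig {d : ℕ} {ω : Conf d} (h0 : ω 0 = true) (h : GoodAt ω 0) (e : Dir d) :
    sig (flip e) (sig e ω) = ω := by
  have h1 := sig_shift ω 0 e
  rw [shift_zero] at h1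
  rw [h1, sig_shift, nxt_nxt h0 h, shift_zero]

/-! ### Labelled graphs -/

/-- A labelled graph: from each vertex there is one edge for each label, and edges can be
reversed. -/
structure LGraph (V D : Type) where
  nxt : V → D → V
  flip : D → D
  flip_flip : ∀ e, flip (flip e) = e
  nxt_nxt : ∀ v e, nxt (nxt v e) (flip e) = v

namespace LGraph

variable {V D : Type} (G : LGraph V D)

/-- The walk from `o` with label sequence `u`. -/
def walk (o : V) (u : ℕ → D) : ℕ → V
  | 0 => o
  | n + 1 => G.nxt (walk o u n) (u n)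

variable [Fintype D]

/-- The averaging operator. -/
noncomputable def avg (q : V → ℝ) (y : V) : ℝ := (∑ e, q (G.nxt y e)) / (Fintype.card D : ℝ)

open Classical in
/-- The law of the walk from `o` at time `n`. -/
noncomputable def heat (o : V) : ℕ → V → ℝ
  | 0 => fun v => if v = o then 1 else 0
  | n + 1 => G.avg (heat o n)

/-- The entropy of a nonnegative function. -/
noncomputable def ent {V : Type} (q : V → ℝ) : ℝ := ∑' v, Real.negMulLog (q v)

end LGraph

/-- The mean square of a field at a point. -/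
noncomputable def energy {V D : Type} [Fintype D] (g : V → D → ℝ) (v : V) : ℝ :=
  (∑ e, g v e ^ 2) / (Fintype.card D : ℝ)

/-- The mean of a field at a point. -/
noncomputable def mean {V D : Type} [Fintype D] (g : V → D → ℝ) (v : V) : ℝ :=
  (∑ e, g v e) / (Fintype.card D : ℝ)

/-- The graph of a good configuration. -/
noncomputable def siteGraph {d : ℕ} (ω : Conf d) (h : Good ω) :
    LGraph {v : Site d // ω v = true} (Dir d) where
  nxt v e := ⟨nxt ω v.1 e, nxt_occ (h v.1 v.2) e⟩
  flip := flip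
  flip_flip := flip_flip
  nxt_nxt v e := Subtype.ext (nxt_nxt v.2 (h v.1 v.2) e)

lemma siteGraph_walk {d : ℕ} (ω : Conf d) (h : Good ω) (h0 : ω 0 = true) (u : ℕ → Dir d) (n : ℕ) :
    ((siteGraph ω h).walk ⟨0, h0⟩ u n).1 = walk ω u n := by
  induction n with
  | zero => rfl
  | succ n ih =>
    change nxt ω ((siteGraph ω h).walk ⟨0, h0⟩ u n).1 (u n) = nxt ω (walk ω u n) (u n)
    rw [ih]

/-- A reversible random dynamical system: finitely many measure preserving maps, closed under
inverses. -/
structure RevSys (Ω D : Type) [MeasurableSpace Ω] (P : Measure Ω) where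
  σ : D → Ω → Ω
  mp : ∀ e, MeasurePreserving (σ e) P P
  flip : D → D
  flip_flip : ∀ e, flip (flip e) = e
  inv : ∀ e, ∀ᵐ ω ∂P, σ (flip e) (σ e ω) = ω

namespace RevSys

variable {Ω D : Type} [MeasurableSpace Ω] {P : Measure Ω} (S : RevSys Ω D P)

/-- The environment chain. -/
def env (ω : Ω) (u : ℕ → D) : ℕ → Ω
  | 0 => ω
  | n + 1 => S.σ (u n) (env ω u n)

/-- The Markov operator of the environment chain. -/
noncomputable def R [Fintype D] (f : Ω → ℝ) (ω : Ω) : ℝ :=
  (∑ e, f (S.σ e ω)) / (Fintype.card D : ℝ)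

/-- The iterates of the Markov operator. -/
noncomputable def Rit [Fintype D] (f : Ω → ℝ) : ℕ → Ω → ℝ
  | 0 => f
  | n + 1 => S.R (Rit f n)

/-- Ergodicity: functions invariant under all maps are constant. -/
def Erg : Prop :=
  ∀ h : Ω → ℝ, Measurable h → (∀ e, h ∘ S.σ e =ᵐ[P] h) → ∃ c, h =ᵐ[P] fun _ => c

end RevSys

end Pool.Agent.Helper58.Qip
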