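import Pool.Agent.Helper58.Qip.Prob

set_option autoImplicit false
set_option linter.unusedSectionVars false

/-!
The central limit theorem for the martingale part, in a fixed environment.
-/

open MeasureTheory ProbabilityTheory Filter Topology
open scoped ENNReal NNReal

namespace Pool.Agent.Helper58.Qip

variable {d : ℕ} [Nonempty (Dir d)]

/-- Covariances of fields. -/
noncomputable def covf (Ψ : Fin d → Conf d → Dir d → ℝ) (a b : Fin d) (ω : Conf d) : ℝ :=
  (∑ e, Ψ a ω e * Ψ b ω e) / (Fintype.card (Dir d) : ℝ)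

/-- The size of the fields. -/
noncomputable def rho (Ψ : Fin d → Conf d → Dir d → ℝ) (ω : Conf d) (e : Dir d) : ℝ :=
  ∑ a, |Ψ a ω e|

/-- Truncated squares. -/
noncomputable def Lam (Ψ : Fin d → Conf d → Dir d → ℝ) (L : ℕ) (ω : Conf d) : ℝ :=
  (∑ e, if (L : ℝ) ≤ rho Ψ ω e then rho Ψ ω e ^ 2 else 0) / (Fintype.card (Dir d) : ℝ)

/-- The environment at time `k`. -/
noncomputable def envw (ω : Conf d) (u : ℕ → Dir d) (k : ℕ) : Conf d := shift (walk ω u k) ω

/-- Typical environments. -/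
structure Typ (ω : Conf d) (Ψ : Fin d → Conf d → Dir d → ℝ) (Dm : Matrix (Fin d) (Fin d) ℝ)
    (lam : ℕ → ℝ) : Prop where
  occ : ω 0 = true
  good : Good ω
  div : ∀ v, ω v = true → ∀ a, ∑ e, Ψ a (shift v ω) e = 0
  cov : ∀ a b, InP (fun n u =>
    (∑ k ∈ Finset.range n, covf Ψ a b (envw ω u k)) / (n : ℝ) - Dm a b)
  lind : ∀ L : ℕ, Tendsto (fun n : ℕ =>
    (∑ k ∈ Finset.range n, ∫ u, Lam Ψ L (envw ω u k) ∂unif (Dir d)) / (n : ℝ)) atTop (𝓝 (lam L))
  lam0 : Tendsto lam atTop (𝓝 0)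
  var : ∀ a, Tendsto (fun n : ℕ =>
    (∑ k ∈ Finset.range n, ∫ u, energy (Ψ a) (envw ω u k) ∂unif (Dir d)) / (n : ℝ)) atTop
      (𝓝 (Dm a a))
  negl : ∀ a, ∀ T : ℕ, 1 ≤ T → ∀ δ : ℝ, 0 < δ →
    Tendsto (fun n : ℕ => (unif (Dir d)).real
      {u | ∃ j ≤ T * n, δ * √(n : ℝ) ≤
        |∑ k ∈ Finset.range j, (Phi a (envw ω u k) (u k) - Ψ a (envw ω u k) (u k))|})
      atTop (𝓝 0)

lemma envw_dep (ω : Conf d) (k : ℕ) : Dep k (fun u => envw ω u k) :=
  (walk_dep ω k).comp fun v => shift v ω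

lemma walk_occ {ω : Conf d} (h0 : ω 0 = true) (hω : Good ω) (u : ℕ → Dir d) (k : ℕ) :
    ω (walk ω u k) = true := by
  rw [← siteGraph_walk ω hω h0]
  exact ((siteGraph ω hω).walk ⟨0, h0⟩ u k).2

/-! ### Times -/

/-- `⌊n t⌋`. -/
noncomputable def fl (t : ℝ≥0) (n : ℕ) : ℕ := ⌊(n : ℝ≥0) * t⌋₊

lemma fl_zero (n : ℕ) : fl 0 n = 0 := by simp [fl]

lemma fl_mono {s t : ℝ≥0} (h : s ≤ t) (n : ℕ) : fl s n ≤ fl t n :=
  Nat.floor_mono (mul_le_mul_right h _)

lemma fl_min (s t : ℝ≥0) (n : ℕ) : fl (min s t) n = min (fl s n) (fl t n) := by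
  rcases le_total s t with h | h
  · rw [min_eq_left h, min_eq_left (fl_mono h n)]
  · rw [min_eq_right h, min_eq_right (fl_mono h n)]

lemma fl_le (t : ℝ≥0) (n : ℕ) : (fl t n : ℝ) ≤ n * t := by
  have h : ((fl t n : ℕ) : ℝ≥0) ≤ (n : ℝ≥0) * t := Nat.floor_le (by positivity)
  exact_mod_cast h

lemma lt_fl (t : ℝ≥0) (n : ℕ) : (n : ℝ) * t < fl t n + 1 := by
  have h : (n : ℝ≥0) * t < ((fl t n : ℕ) : ℝ≥0) + 1 := Nat.lt_floor_add_one _
  exact_mod_cast h

lemma fl_div_tendsto (t : ℝ≥0) :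
    Tendsto (fun n : ℕ => (fl t n : ℝ) / (n : ℝ)) atTop (𝓝 (t : ℝ)) := by
  have h1 : Tendsto (fun n : ℕ => (t : ℝ) - 1 / (n : ℝ)) atTop (𝓝 ((t : ℝ) - 0)) :=
    tendsto_const_nhds.sub tendsto_one_div_atTop_nhds_zero_nat
  rw [sub_zero] at h1
  refine tendsto_of_tendsto_of_tendsto_of_le_of_le' h1 tendsto_const_nhds ?_ ?_
  · filter_upwards [eventually_ge_atTop 1] with n hn
    have hn0 : (0 : ℝ) < n := by exact_mod_cast hn
    rw [le_div_iff₀ hn0, sub_mul, one_div, inv_mul_cancel₀ hn0.ne']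
    have := lt_fl t n
    linarith
  · filter_upwards [eventually_ge_atTop 1] with n hn
    have hn0 : (0 : ℝ) < n := by exact_mod_cast hn
    rw [div_le_iff₀ hn0, mul_comm]
    exact fl_le t n

lemma fl_tendsto {t : ℝ≥0} (ht : 0 < t) : Tendsto (fl t) atTop atTop := by
  have h := tendsto_natCast_atTop_atTop (R := ℝ)
  rw [← tendsto_natCast_atTop_iff (R := ℝ)]
  have h2 : Tendsto (fun n : ℕ => (n : ℝ) * t - 1) atTop atTop :=
    tendsto_atTop_add_const_right _ _ (h.atTop_mul_const (by exact_mod_cast ht))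
  exact tendsto_atTop_mono (fun n => by have := lt_fl t n; linarith) h2

lemma inP_time {f : ℕ → (ℕ → Dir d) → ℝ} {c : ℝ}
    (h : InP (fun n u => (∑ k ∈ Finset.range n, f k u) / (n : ℝ) - c)) (t : ℝ≥0) :
    InP (fun n u => (∑ k ∈ Finset.range (fl t n), f k u) / (n : ℝ) - (t : ℝ) * c) := by
  rcases eq_or_lt_of_le (zero_le (a := t)) with h0 | h0
  · subst h0
    refine InP.zero.congr fun n u => ?_
    simp [fl_zero]
  · have h1 : InP (fun n u => (∑ k ∈ Finset.range (fl t n), f k u) / (fl t n : ℝ) - c) :=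
      fun ε hε => (h ε hε).comp (fl_tendsto h0)
    have h2 := fl_div_tendsto t
    have h3 : ∀ᶠ n : ℕ in atTop, |(fl t n : ℝ) / (n : ℝ)| ≤ (t : ℝ) + 1 := by
      filter_upwards [h2.eventually (gt_mem_nhds (lt_add_one (t : ℝ)))] with n hn
      rw [abs_of_nonneg (by positivity)]
      exact hn.le
    have h4 : Tendsto (fun n : ℕ => ((fl t n : ℝ) / (n : ℝ) - t) * c) atTop (𝓝 0) := by
      have := (h2.sub_const (t : ℝ)).mul_const c
      simpa using this
    refine ((h1.bdd_mul h3).add (InP.of_tendsto h4)).of_le ?_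
    filter_upwards [eventually_ge_atTop 1] with n hn u
    have hn0 : (n : ℝ) ≠ 0 := by positivity
    apply le_of_eq
    congr 1
    by_cases hf : fl t n = 0
    · simp [hf]
    · have hf0 : (fl t n : ℝ) ≠ 0 := by exact_mod_cast hf
      field_simp
      ring

lemma tendsto_time {f : ℕ → ℝ} {c : ℝ}
    (h : Tendsto (fun n : ℕ => (∑ k ∈ Finset.range n, f k) / (n : ℝ)) atTop (𝓝 c)) (t : ℝ≥0) :
    Tendsto (fun n : ℕ => (∑ k ∈ Finset.range (fl t n), f k) / (n : ℝ)) atTop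
      (𝓝 ((t : ℝ) * c)) := by
  rcases eq_or_lt_of_le (zero_le (a := t)) with h0 | h0
  · subst h0
    simp [fl_zero]
  · have h1 := h.comp (fl_tendsto h0)
    have h2 := (fl_div_tendsto t).mul h1
    refine h2.congr' ?_
    filter_upwards [eventually_ge_atTop 1] with n hn
    have hn0 : (n : ℝ) ≠ 0 := by positivity
    simp only [Function.comp]
    by_cases hf : fl t n = 0
    · simp [hf]
    · have hf0 : (fl t n : ℝ) ≠ 0 := by exact_mod_cast hf
      field_simp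

/-! ### The array -/

section array

variable (Ψ : Fin d → Conf d → Dir d → ℝ) (ω : Conf d) {ι : Type} [Fintype ι]
  (t : ι → ℝ≥0) (a : ι → Fin d) (c : ι → ℝ)

/-- The martingale differences. -/
noncomputable def xi (n k : ℕ) (u : ℕ → Dir d) (e : Dir d) : ℝ :=
  (∑ p, if k < fl (t p) n then c p * Ψ (a p) (envw ω u k) e else 0) / √(n : ℝ)

/-- The number of terms. -/
noncomputable def NN (n : ℕ) : ℕ := ∑ p, fl (t p) n

lemma le_NN (p : ι) (n : ℕ) : fl (t p) n ≤ NN t n :=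
  Finset.single_le_sum (f := fun p => fl (t p) n) (fun _ _ => Nat.zero_le _) (Finset.mem_univ p)

lemma sum_ite_lt {N M : ℕ} (h : M ≤ N) (f : ℕ → ℝ) :
    ∑ k ∈ Finset.range N, (if k < M then f k else 0) = ∑ k ∈ Finset.range M, f k := by
  rw [← Finset.sum_filter]
  congr 1
  ext k
  simp only [Finset.mem_filter, Finset.mem_range]
  omega

lemma sum_xi (n : ℕ) (u : ℕ → Dir d) :
    ∑ k ∈ Finset.range (NN t n), xi Ψ ω t a c n k u (u k) =
      (∑ p, c p * ∑ k ∈ Finset.range (fl (t p) n), Ψ (a p) (envw ω u k) (u k)) / √(n : ℝ) := by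
  simp only [xi]
  rw [← Finset.sum_div, Finset.sum_comm]
  congr 1
  refine Finset.sum_congr rfl fun p _ => ?_
  rw [sum_ite_lt (le_NN t p n), Finset.mul_sum]

lemma sq_xi (n k : ℕ) (u : ℕ → Dir d) :
    (∑ e, xi Ψ ω t a c n k u e ^ 2) / (Fintype.card (Dir d) : ℝ) =
      (∑ p, ∑ q, if k < fl (min (t p) (t q)) n then
        c p * c q * covf Ψ (a p) (a q) (envw ω u k) else 0) / (n : ℝ) := by
  have hn : (√(n : ℝ)) ^ 2 = n := Real.sq_sqrt (Nat.cast_nonneg n)
  have h1 : ∀ e, xi Ψ ω t a c n k u e ^ 2 = (∑ p, ∑ q,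
      (if k < fl (t p) n then c p * Ψ (a p) (envw ω u k) e else 0) *
      (if k < fl (t q) n then c q * Ψ (a q) (envw ω u k) e else 0)) / (n : ℝ) := by
    intro e
    rw [xi, div_pow, hn, sq, Finset.sum_mul_sum]
  simp only [h1]
  rw [← Finset.sum_div, Finset.sum_comm, div_div, mul_comm (n : ℝ), ← div_div, Finset.sum_div]
  congr 1
  refine Finset.sum_congr rfl fun p _ => ?_
  rw [Finset.sum_comm, Finset.sum_div]
  refine Finset.sum_congr rfl fun q _ => ?_
  rw [fl_min]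
  by_cases hp : k < fl (t p) n
  · by_cases hq : k < fl (t q) n
    · simp only [hp, hq, if_true, lt_min_iff, and_self, covf]
      rw [← mul_div_assoc, Finset.mul_sum]
      congr 1
      refine Finset.sum_congr rfl fun e _ => ?_
      ring
    · simp [hq]
  · simp [hp]

lemma sum_sq_xi (n : ℕ) (u : ℕ → Dir d) :
    ∑ k ∈ Finset.range (NN t n), (∑ e, xi Ψ ω t a c n k u e ^ 2) /
        (Fintype.card (Dir d) : ℝ) =
      ∑ p, ∑ q, c p * c q * ((∑ k ∈ Finset.range (fl (min (t p) (t q)) n),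
        covf Ψ (a p) (a q) (envw ω u k)) / (n : ℝ)) := by
  simp only [sq_xi]
  rw [← Finset.sum_div, Finset.sum_comm, Finset.sum_div]
  refine Finset.sum_congr rfl fun p _ => ?_
  rw [Finset.sum_comm, Finset.sum_div]
  refine Finset.sum_congr rfl fun q _ => ?_
  rw [sum_ite_lt, ← Finset.mul_sum, mul_div_assoc]
  exact (fl_mono (min_le_left _ _) n).trans (le_NN t p n)

end array

end Pool.Agent.Helper58.Qip
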