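import Pool.Agent.Helper58.Qip.Clt

set_option autoImplicit false
set_option linter.unusedSectionVars false

/-!
The central limit theorem for the martingale part, in a fixed environment (continued).
-/

open MeasureTheory ProbabilityTheory Filter Topology
open scoped ENNReal NNReal

namespace Pool.Agent.Helper58.Qip

variable {d : ℕ} [Nonempty (Dir d)]

lemma abs_le_rho (Ψ : Fin d → Conf d → Dir d → ℝ) (a : Fin d) (ω : Conf d) (e : Dir d) :
    |Ψ a ω e| ≤ rho Ψ ω e :=
  Finset.single_le_sum (f := fun a => |Ψ a ω e|) (fun _ _ => abs_nonneg _) (Finset.mem_univ a)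

lemma rho_nonneg (Ψ : Fin d → Conf d → Dir d → ℝ) (ω : Conf d) (e : Dir d) :
    0 ≤ rho Ψ ω e := Finset.sum_nonneg fun _ _ => abs_nonneg _

lemma Lam_nonneg (Ψ : Fin d → Conf d → Dir d → ℝ) (L : ℕ) (ω : Conf d) : 0 ≤ Lam Ψ L ω := by
  unfold Lam
  refine div_nonneg (Finset.sum_nonneg fun e _ => ?_) (Nat.cast_nonneg _)
  split_ifs
  · positivity
  · exact le_rfl

section array

variable (Ψ : Fin d → Conf d → Dir d → ℝ) (ω : Conf d) {ι : Type} [Fintype ι]
  (t : ι → ℝ≥0) (a : ι → Fin d) (c : ι → ℝ)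

lemma abs_xi_le (n k : ℕ) (u : ℕ → Dir d) (e : Dir d) :
    |xi Ψ ω t a c n k u e| ≤ (∑ p, |c p|) * rho Ψ (envw ω u k) e / √(n : ℝ) := by
  unfold xi
  rw [abs_div, abs_of_nonneg (Real.sqrt_nonneg _)]
  gcongr
  refine (Finset.abs_sum_le_sum_abs _ _).trans ?_
  rw [Finset.sum_mul]
  refine Finset.sum_le_sum fun p _ => ?_
  split_ifs
  · rw [abs_mul]
    exact mul_le_mul_of_nonneg_left (abs_le_rho Ψ _ _ _) (abs_nonneg _)
  · rw [abs_zero]
    exact mul_nonneg (abs_nonneg _) (rho_nonneg _ _ _)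

lemma NN_le (n : ℕ) : NN t n ≤ fl (∑ p, t p) n := by
  unfold NN
  apply Nat.le_floor
  rw [Finset.mul_sum]
  push_cast
  exact Finset.sum_le_sum fun p _ => Nat.floor_le (by positivity)

lemma xi_congr (n k : ℕ) (u u' : ℕ → Dir d) (h : ∀ i, i < k → u i = u' i) :
    xi Ψ ω t a c n k u = xi Ψ ω t a c n k u' := by
  funext e
  unfold xi
  rw [show envw ω u k = envw ω u' k from envw_dep ω k u u' h]

lemma xi_sum {Dm : Matrix (Fin d) (Fin d) ℝ} {lam : ℕ → ℝ} (hT : Typ ω Ψ Dm lam) (n k : ℕ)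
    (u : ℕ → Dir d) : ∑ e, xi Ψ ω t a c n k u e = 0 := by
  unfold xi
  rw [← Finset.sum_div, Finset.sum_comm, Finset.sum_eq_zero, zero_div]
  intro p _
  split_ifs
  · rw [← Finset.mul_sum]
    have := hT.div _ (walk_occ hT.occ hT.good u k) (a p)
    rw [show ∑ e, Ψ (a p) (envw ω u k) e = 0 from this, mul_zero]
  · simp

lemma lindeberg {Dm : Matrix (Fin d) (Fin d) ℝ} {lam : ℕ → ℝ} (hT : Typ ω Ψ Dm lam)
    (ε : ℝ) (hε : 0 < ε) :
    InP (fun n u => ∑ k ∈ Finset.range (NN t n),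
      (∑ e, if ε ≤ |xi Ψ ω t a c n k u e| then xi Ψ ω t a c n k u e ^ 2 else 0) /
        (Fintype.card (Dir d) : ℝ)) := by
  set Z : ℕ → (ℕ → Dir d) → ℝ := fun n u => ∑ k ∈ Finset.range (NN t n),
      (∑ e, if ε ≤ |xi Ψ ω t a c n k u e| then xi Ψ ω t a c n k u e ^ 2 else 0) /
        (Fintype.card (Dir d) : ℝ) with hZ
  have hZ0 : ∀ n u, 0 ≤ Z n u := fun n u => Finset.sum_nonneg fun k _ =>
    div_nonneg (Finset.sum_nonneg fun e _ => by split_ifs; exacts [sq_nonneg _, le_rfl])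
      (Nat.cast_nonneg _)
  have hZd : ∀ n, Dep (NN t n) (Z n) := by
    intro n u u' h
    simp only [hZ]
    refine Finset.sum_congr rfl fun k hk => ?_
    rw [Finset.mem_range] at hk
    rw [xi_congr Ψ ω t a c n k u u' fun i hi => h i (by omega)]
  refine InP.of_mean (fun n => ⟨_, hZd n⟩) ?_
  set C : ℝ := (∑ p, |c p|) with hC
  have hC0 : 0 ≤ C := Finset.sum_nonneg fun _ _ => abs_nonneg _
  set τ : ℝ≥0 := ∑ p, t p with hτ
  -- the main bound
  have key : ∀ L : ℕ, ∀ᶠ n : ℕ in atTop, ∫ u, |Z n u| ∂unif (Dir d) ≤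
      C ^ 2 * ((∑ k ∈ Finset.range (fl τ n), ∫ u, Lam Ψ L (envw ω u k) ∂unif (Dir d)) /
        (n : ℝ)) := by
    intro L
    have h1 : ∀ᶠ n : ℕ in atTop, C * L / ε < √(n : ℝ) :=
      (Real.tendsto_sqrt_atTop.comp tendsto_natCast_atTop_atTop).eventually_gt_atTop _
    filter_upwards [h1, eventually_ge_atTop 1] with n hn hn1
    have hn0 : (0 : ℝ) < n := by exact_mod_cast hn1
    have hsn : 0 < √(n : ℝ) := Real.sqrt_pos.2 hn0
    have hpt : ∀ u, |Z n u| ≤ ∑ k ∈ Finset.range (fl τ n), C ^ 2 / n * Lam Ψ L (envw ω u k) := by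
      intro u
      rw [abs_of_nonneg (hZ0 n u)]
      have h2 : Z n u ≤ ∑ k ∈ Finset.range (NN t n), C ^ 2 / n * Lam Ψ L (envw ω u k) := by
        refine Finset.sum_le_sum fun k _ => ?_
        unfold Lam
        rw [← mul_div_assoc, Finset.mul_sum]
        refine div_le_div_of_nonneg_right (Finset.sum_le_sum fun e _ => ?_) (Nat.cast_nonneg _)
        have h3 := abs_xi_le Ψ ω t a c n k u e
        have h4 := rho_nonneg Ψ (envw ω u k) e
        rw [← hC] at h3
        by_cases h5 : ε ≤ |xi Ψ ω t a c n k u e|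
        · rw [if_pos h5]
          have h6 : (L : ℝ) ≤ rho Ψ (envw ω u k) e := by
            by_contra h7
            push Not at h7
            have h8 : ε ≤ C * rho Ψ (envw ω u k) e / √(n : ℝ) := h5.trans h3
            rw [le_div_iff₀ hsn] at h8
            rw [div_lt_iff₀ hε] at hn
            nlinarith
          rw [if_pos h6, ← sq_abs]
          calc |xi Ψ ω t a c n k u e| ^ 2 ≤ (C * rho Ψ (envw ω u k) e / √(n : ℝ)) ^ 2 := by
                gcongr
            _ = C ^ 2 / n * rho Ψ (envw ω u k) e ^ 2 := by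
                rw [div_pow, Real.sq_sqrt hn0.le]; ring
        · rw [if_neg h5]
          split_ifs
          · positivity
          · simp
      refine h2.trans ?_
      exact Finset.sum_le_sum_of_subset_of_nonneg (Finset.range_mono (NN_le t n))
        fun k _ _ => mul_nonneg (by positivity) (Lam_nonneg _ _ _)
    have hint : ∀ k ∈ Finset.range (fl τ n),
        Integrable (fun u => C ^ 2 / n * Lam Ψ L (envw ω u k)) (unif (Dir d)) :=
      fun k _ => ((envw_dep ω k).comp fun x => C ^ 2 / n * Lam Ψ L x).integrable _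
    calc ∫ u, |Z n u| ∂unif (Dir d)
        ≤ ∫ u, ∑ k ∈ Finset.range (fl τ n), C ^ 2 / n * Lam Ψ L (envw ω u k) ∂unif (Dir d) :=
          integral_mono ((hZd n).comp (fun a => |a|) |>.integrable _)
            (integrable_finsetSum _ hint) hpt
      _ = C ^ 2 * ((∑ k ∈ Finset.range (fl τ n), ∫ u, Lam Ψ L (envw ω u k) ∂unif (Dir d)) /
        (n : ℝ)) := by
          rw [integral_finsetSum _ hint]
          simp only [integral_const_mul]
          rw [← Finset.mul_sum]
          ring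
  rw [Metric.tendsto_atTop]
  intro η hη
  have hl : Tendsto (fun L => C ^ 2 * (τ * lam L)) atTop (𝓝 0) := by
    have := (hT.lam0.const_mul (τ : ℝ)).const_mul (C ^ 2)
    simpa using this
  obtain ⟨L, hL⟩ := (hl.eventually (gt_mem_nhds hη)).exists
  have h2 := (tendsto_time (hT.lind L) τ).const_mul (C ^ 2)
  obtain ⟨N, hN⟩ := eventually_atTop.1 ((key L).and (h2.eventually (gt_mem_nhds hL)))
  refine ⟨N, fun n hn => ?_⟩
  rw [Real.dist_eq, sub_zero, abs_of_nonneg (integral_nonneg fun _ => abs_nonneg _)]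
  exact (hN n hn).1.trans_lt (hN n hn).2

/-- The limiting variance. -/
noncomputable def svar (Dm : Matrix (Fin d) (Fin d) ℝ) : ℝ :=
  ∑ p, ∑ q, c p * c q * (((min (t p) (t q) : ℝ≥0) : ℝ) * Dm (a p) (a q))

lemma var_conv {Dm : Matrix (Fin d) (Fin d) ℝ} {lam : ℕ → ℝ} (hT : Typ ω Ψ Dm lam) :
    InP (fun n u => ∑ k ∈ Finset.range (NN t n), (∑ e, xi Ψ ω t a c n k u e ^ 2) /
        (Fintype.card (Dir d) : ℝ) - svar t a c Dm) := by
  have h1 : InP (fun n (u : ℕ → Dir d) => ∑ p, ∑ q, c p * c q *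
      ((∑ k ∈ Finset.range (fl (min (t p) (t q)) n),
        covf Ψ (a p) (a q) (envw ω u k)) / (n : ℝ) -
        ((min (t p) (t q) : ℝ≥0) : ℝ) * Dm (a p) (a q))) :=
    InP.sum _ fun p _ => InP.sum _ fun q _ =>
      (inP_time (hT.cov (a p) (a q)) (min (t p) (t q))).const_mul (c p * c q)
  refine h1.congr fun n u => ?_
  rw [sum_sq_xi, svar, ← Finset.sum_sub_distrib]
  refine Finset.sum_congr rfl fun p _ => ?_
  rw [← Finset.sum_sub_distrib]
  refine Finset.sum_congr rfl fun q _ => ?_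
  ring

lemma svar_nonneg {Dm : Matrix (Fin d) (Fin d) ℝ} {lam : ℕ → ℝ} (hT : Typ ω Ψ Dm lam) :
    0 ≤ svar t a c Dm := by
  by_contra hneg
  push Not at hneg
  have h := var_conv Ψ ω t a c hT (- svar t a c Dm) (by linarith)
  have h1 : ∀ n : ℕ, (unif (Dir d)).real {u | - svar t a c Dm ≤
      |∑ k ∈ Finset.range (NN t n), (∑ e, xi Ψ ω t a c n k u e ^ 2) /
        (Fintype.card (Dir d) : ℝ) - svar t a c Dm|} = 1 := by
    intro n
    have : {u | - svar t a c Dm ≤
      |∑ k ∈ Finset.range (NN t n), (∑ e, xi Ψ ω t a c n k u e ^ 2) /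
        (Fintype.card (Dir d) : ℝ) - svar t a c Dm|} = Set.univ := by
      ext u
      simp only [Set.mem_ofPred_eq, Set.mem_univ, iff_true]
      have h0 : 0 ≤ ∑ k ∈ Finset.range (NN t n), (∑ e, xi Ψ ω t a c n k u e ^ 2) /
        (Fintype.card (Dir d) : ℝ) := Finset.sum_nonneg fun k _ =>
          div_nonneg (Finset.sum_nonneg fun e _ => sq_nonneg _) (Nat.cast_nonneg _)
      rw [abs_of_nonneg (by linarith)]
      linarith
    rw [this]
    simp
  simp only [h1] at h
  exact absurd (tendsto_nhds_unique h tendsto_const_nhds) (by norm_num)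

lemma clt_M (hG : StmtG) {Dm : Matrix (Fin d) (Fin d) ℝ} {lam : ℕ → ℝ} (hT : Typ ω Ψ Dm lam) :
    Tendsto (fun n : ℕ => ∫ u, Complex.exp (Complex.I * (((∑ p, c p *
      ∑ k ∈ Finset.range (fl (t p) n), Ψ (a p) (envw ω u k) (u k)) / √(n : ℝ) : ℝ) : ℂ))
        ∂unif (Dir d)) atTop (𝓝 (Complex.exp (-(1 / 2) * (svar t a c Dm : ℂ)))) := by
  have h := hG (Dir d) (NN t) (xi Ψ ω t a c) (svar t a c Dm) (svar_nonneg Ψ ω t a c hT)
    (xi_congr Ψ ω t a c) (xi_sum Ψ ω t a c hT) (fun ε hε => var_conv Ψ ω t a c hT ε hε)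
    (fun ε δ hε hδ => by
      have h := lindeberg Ψ ω t a c hT ε hε δ hδ
      refine h.congr fun n => ?_
      congr 1
      ext u
      simp only [Set.mem_ofPred_eq]
      rw [abs_of_nonneg]
      exact Finset.sum_nonneg fun k _ =>
        div_nonneg (Finset.sum_nonneg fun e _ => by split_ifs; exacts [sq_nonneg _, le_rfl])
          (Nat.cast_nonneg _))
  refine h.congr fun n => ?_
  refine integral_congr_ae (Eventually.of_forall fun u => ?_)
  simp only
  rw [sum_xi]

end array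

end Pool.Agent.Helper58.Qip
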