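import Pool.Agent.Helper58.Qip.Heat

set_option autoImplicit false
set_option linter.unusedSectionVars false

/-!
The forward-backward decomposition of an antisymmetric additive functional of the walk
started from a fixed point.
-/

open MeasureTheory ProbabilityTheory Filter Topology
open scoped ENNReal NNReal

namespace Pool.Agent.Helper58.Qip

section misc

variable {V D : Type} [Fintype D] [Nonempty D]

lemma card_pos' : (0 : ℝ) < (Fintype.card D : ℝ) := by exact_mod_cast Fintype.card_pos

lemma energy_nonneg (g : V → D → ℝ) (v : V) : 0 ≤ energy g v :=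
  div_nonneg (Finset.sum_nonneg fun _ _ => sq_nonneg _) (Nat.cast_nonneg _)

lemma mean_sq_le (g : V → D → ℝ) (v : V) : mean g v ^ 2 ≤ energy g v := by
  have hm : (0 : ℝ) < (Fintype.card D : ℝ) := card_pos'
  unfold mean energy
  have := @sq_sum_le_card_mul_sum_sq D ℝ _ _ _ _ Finset.univ (fun e => g v e)
  rw [div_pow, div_le_div_iff₀ (by positivity) hm]
  simp only [Finset.card_univ] at this
  nlinarith

end misc

namespace LGraph

variable {V D : Type} (G : LGraph V D) [Fintype D] [Nonempty D] [MeasurableSpace D]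
  [MeasurableSingletonClass D]

/-- One step of conditioning. -/
lemma cond_aux (o : V) (k m : ℕ) (Y : (ℕ → D) → ℝ) (hY : Dep (k + m) Y)
    (hfac : ∀ u u', G.walk o u k = G.walk o u' k → (∀ i, k ≤ i → i < k + m → u i = u' i) →
      Y u = Y u') :
    ∃ Y' : (ℕ → D) → ℝ, Dep k Y' ∧ (∀ u u', G.walk o u k = G.walk o u' k → Y' u = Y' u') ∧
      ∀ ζ : (ℕ → D) → ℝ, Dep k ζ → ∫ u, ζ u * Y u ∂unif D = ∫ u, ζ u * Y' u ∂unif D := by
  induction m generalizing Y with
  | zero => exact ⟨Y, hY, fun u u' h => hfac u u' h (fun i h1 h2 => by omega), fun _ _ => rfl⟩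
  | succ m ih =>
    have key : ∀ u u' : ℕ → D, ∀ e : D, G.walk o u k = G.walk o u' k →
        (∀ i, k ≤ i → i < k + m → u i = u' i) →
        Y (Function.update u (k + m) e) = Y (Function.update u' (k + m) e) := by
      intro u u' e h1 h2
      apply hfac
      · have e1 : G.walk o (Function.update u (k + m) e) k = G.walk o u k :=
          G.walk_dep o k _ _ fun i hi => Function.update_of_ne (by omega) _ _
        have e2 : G.walk o (Function.update u' (k + m) e) k = G.walk o u' k :=
          G.walk_dep o k _ _ fun i hi => Function.update_of_ne (by omega) _ _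
        rw [e1, e2, h1]
      · intro i hi1 hi2
        by_cases h : i = k + m
        · subst h; simp
        · rw [Function.update_of_ne h, Function.update_of_ne h]
          exact h2 i hi1 (by omega)
    obtain ⟨Y', h1, h2, h3⟩ := ih
      (fun u => (∑ e, Y (Function.update u (k + m) e)) / (Fintype.card D : ℝ))
      (fun u u' hu => by
        simp only
        congr 1
        refine Finset.sum_congr rfl fun e _ => key u u' e ?_ fun i _ hi => hu i hi
        exact G.walk_dep o k u u' fun i hi => hu i (by omega))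
      (fun u u' hw hu => by

        congr 1
        exact Finset.sum_congr rfl fun e _ => key u u' e hw hu)
    refine ⟨Y', h1, h2, fun ζ hζ => ?_⟩
    rw [← h3 ζ hζ]
    have hdep : Dep (k + (m + 1)) (fun u => ζ u * Y u) :=
      (hζ.mono (by omega)).comp₂ hY (fun a b => a * b)
    rw [integral_update hdep (k + m)]
    refine integral_congr_ae (Eventually.of_forall fun u => ?_)
    simp only
    rw [← mul_div_assoc, Finset.mul_sum]
    congr 1
    refine Finset.sum_congr rfl fun e _ => ?_
    congr 1
    exact hζ _ _ fun i hi => Function.update_of_ne (by omega) _ _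

lemma exists_cond (o : V) (k n : ℕ) (hkn : k ≤ n) (Y : (ℕ → D) → ℝ) (hY : Dep n Y)
    (hfac : ∀ u u', G.walk o u k = G.walk o u' k → (∀ i, k ≤ i → i < n → u i = u' i) →
      Y u = Y u') :
    ∃ y : V → ℝ, ∀ ζ : (ℕ → D) → ℝ, Dep k ζ →
      ∫ u, ζ u * Y u ∂unif D = ∫ u, ζ u * y (G.walk o u k) ∂unif D := by
  classical
  obtain ⟨m, rfl⟩ := Nat.exists_eq_add_of_le hkn
  obtain ⟨Y', _, h2, h3⟩ := G.cond_aux o k m Y hY hfac
  refine ⟨fun v => if h : ∃ u, G.walk o u k = v then Y' h.choose else 0, fun ζ hζ => ?_⟩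
  rw [h3 ζ hζ]
  refine integral_congr_ae (Eventually.of_forall fun u => ?_)
  have h : ∃ u', G.walk o u' k = G.walk o u k := ⟨u, rfl⟩
  simp only [dif_pos h]
  rw [h2 _ _ h.choose_spec]

variable (o : V) (g : V → D → ℝ)

/-- The mean energy at time `k`. -/
noncomputable def en (k : ℕ) : ℝ := ∫ u, energy g (G.walk o u k) ∂unif D

/-- The conditional mean of the field on the last step, given the present position. -/
noncomputable def bm (k : ℕ) (y : V) : ℝ :=
  ((∑ e, G.heat o k (G.nxt y e) * g (G.nxt y e) (G.flip e)) / (Fintype.card D : ℝ)) /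
    G.heat o (k + 1) y

lemma heat_mul_bm (k : ℕ) (y : V) :
    G.heat o (k + 1) y * G.bm o g k y =
      (∑ e, G.heat o k (G.nxt y e) * g (G.nxt y e) (G.flip e)) / (Fintype.card D : ℝ) := by
  by_cases h : G.heat o (k + 1) y = 0
  · have hm : (0 : ℝ) < (Fintype.card D : ℝ) := card_pos'
    have h1 : ∑ e, G.heat o k (G.nxt y e) = 0 := by
      change (∑ e, G.heat o k (G.nxt y e)) / (Fintype.card D : ℝ) = 0 at h
      rcases div_eq_zero_iff.1 h with h | h
      · exact h
      · exact absurd h hm.ne'
    have h2 : ∀ e ∈ Finset.univ, G.heat o k (G.nxt y e) = 0 :=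
      (Finset.sum_eq_zero_iff_of_nonneg fun e _ => G.heat_nonneg o k _).1 h1
    rw [h, zero_mul]
    rw [Finset.sum_eq_zero fun e he => by rw [h2 e he, zero_mul], zero_div]
  · unfold bm
    field_simp

lemma integral_mul_y (k : ℕ) (y : V → ℝ) :
    ∫ u, g (G.walk o u k) (u k) * y (G.walk o u (k + 1)) ∂unif D
      = ∫ u, G.bm o g k (G.walk o u (k + 1)) * y (G.walk o u (k + 1)) ∂unif D := by
  have h1 : ∫ u, g (G.walk o u k) (u k) * y (G.walk o u (k + 1)) ∂unif D
      = ∫ u, (fun (u : ℕ → D) (e : D) => g (G.walk o u k) e * y (G.nxt (G.walk o u k) e))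
        u (u k) ∂unif D := rfl
  rw [h1, integral_step (fun e => (G.walk_dep o k).comp fun v => g v e * y (G.nxt v e))]
  have h2 := G.integral_walk o k (fun v => (∑ e, g v e * y (G.nxt v e)) / (Fintype.card D : ℝ))
  rw [h2, G.integral_walk o (k + 1) (fun v => G.bm o g k v * y v)]
  have h3 := G.tsum_edge (fun x e => G.heat o k x * (g x e * y (G.nxt x e)) /
    (Fintype.card D : ℝ)) (G.heat o k).support (G.heat_support_finite o k)
    (fun x hx e => by
      have : G.heat o k x = 0 := by simpa using hx
      simp [this])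
  have h4 : (fun v => G.heat o k v * ((∑ e, g v e * y (G.nxt v e)) / (Fintype.card D : ℝ)))
      = fun x => ∑ e, (fun x e => G.heat o k x * (g x e * y (G.nxt x e)) /
        (Fintype.card D : ℝ)) x e := by
    funext x
    simp only [Finset.mul_sum, Finset.sum_div]
    refine Finset.sum_congr rfl fun e _ => ?_
    ring
  have h5 : (fun v => G.heat o (k + 1) v * (G.bm o g k v * y v))
      = fun x => ∑ e, (fun x e => G.heat o k x * (g x e * y (G.nxt x e)) /
        (Fintype.card D : ℝ)) (G.nxt x e) (G.flip e) := by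
    funext x
    rw [← mul_assoc, heat_mul_bm]
    simp only [G.nxt_nxt, Finset.sum_div, Finset.sum_mul]
    refine Finset.sum_congr rfl fun e _ => ?_
    ring
  rw [h4, h5, h3]

/-- Forward martingale differences. -/
noncomputable def fd (k : ℕ) (u : ℕ → D) : ℝ := g (G.walk o u k) (u k) - mean g (G.walk o u k)

/-- Backward martingale differences. -/
noncomputable def bd (k : ℕ) (u : ℕ → D) : ℝ :=
  g (G.walk o u k) (u k) - G.bm o g k (G.walk o u (k + 1))

lemma dep_g (k : ℕ) : Dep (k + 1) (fun u => g (G.walk o u k) (u k)) :=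
  ((G.walk_dep o k).mono (by omega)).comp₂ (Dep.coord (by omega)) fun v e => g v e

lemma fd_dep (k : ℕ) : Dep (k + 1) (G.fd o g k) :=
  (G.dep_g o g k).comp₂ (((G.walk_dep o k).mono (by omega)).comp (mean g)) fun a b => a - b

lemma bd_dep (k : ℕ) : Dep (k + 1) (G.bd o g k) :=
  (G.dep_g o g k).comp₂ ((G.walk_dep o (k + 1)).comp (G.bm o g k)) fun a b => a - b

lemma integral_g_sq (k : ℕ) : ∫ u, g (G.walk o u k) (u k) ^ 2 ∂unif D = G.en o g k := by
  have h1 : ∫ u, g (G.walk o u k) (u k) ^ 2 ∂unif D
      = ∫ u, (fun (u : ℕ → D) (e : D) => g (G.walk o u k) e ^ 2) u (u k) ∂unif D := rfl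
  rw [h1, integral_step (fun e => (G.walk_dep o k).comp fun v => g v e ^ 2)]
  rfl

lemma fd_orth (k : ℕ) (Y : (ℕ → D) → ℝ) (hY : Dep k Y) :
    ∫ u, G.fd o g k u * Y u ∂unif D = 0 := by
  have hm : (0 : ℝ) < (Fintype.card D : ℝ) := card_pos'
  have h1 : ∫ u, G.fd o g k u * Y u ∂unif D
      = ∫ u, (fun (u : ℕ → D) (e : D) => (g (G.walk o u k) e - mean g (G.walk o u k)) * Y u)
        u (u k) ∂unif D := rfl
  rw [h1, integral_step (fun e => ((G.walk_dep o k).comp fun v => g v e - mean g v).comp₂ hY
    fun a b => a * b)]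
  refine (integral_congr_ae (Eventually.of_forall fun u => ?_)).trans (integral_zero _ _)

  rw [← Finset.sum_mul, Finset.sum_sub_distrib]
  simp only [Finset.sum_const, Finset.card_univ, nsmul_eq_mul, mean]
  field_simp
  ring

lemma bd_orth (k : ℕ) (y : V → ℝ) :
    ∫ u, G.bd o g k u * y (G.walk o u (k + 1)) ∂unif D = 0 := by
  have h := G.integral_mul_y o g k y
  have h1 : ∫ u, G.bd o g k u * y (G.walk o u (k + 1)) ∂unif D
      = ∫ u, (g (G.walk o u k) (u k) * y (G.walk o u (k + 1)) -
        G.bm o g k (G.walk o u (k + 1)) * y (G.walk o u (k + 1))) ∂unif D := by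
    refine integral_congr_ae (Eventually.of_forall fun u => ?_)
    simp only [bd]
    ring
  rw [h1, integral_sub, h, sub_self]
  · exact (((G.dep_g o g k).comp₂ ((G.walk_dep o (k + 1)).comp y)
      fun a b => a * b) : Dep (k + 1) _).integrable _
  · exact ((G.walk_dep o (k + 1)).comp fun v => G.bm o g k v * y v).integrable _

lemma integral_fd_sq_le (k : ℕ) : ∫ u, G.fd o g k u ^ 2 ∂unif D ≤ G.en o g k := by
  have hd : Dep k (fun u => mean g (G.walk o u k)) := (G.walk_dep o k).comp (mean g)
  have h0 := G.fd_orth o g k _ hd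
  have h1 : ∫ u, g (G.walk o u k) (u k) ^ 2 ∂unif D
      = ∫ u, G.fd o g k u ^ 2 ∂unif D + 2 * ∫ u, G.fd o g k u * mean g (G.walk o u k) ∂unif D
        + ∫ u, mean g (G.walk o u k) ^ 2 ∂unif D := by
    rw [← integral_const_mul, ← integral_add, ← integral_add]
    · refine integral_congr_ae (Eventually.of_forall fun u => ?_)
      simp only [fd]
      ring
    · refine Integrable.add ?_ ?_
      · exact ((G.fd_dep o g k).comp fun a => a ^ 2).integrable _
      · exact (((G.fd_dep o g k).comp₂ (hd.mono (by omega)) fun a b => 2 * (a * b))).integrable _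
    · exact (hd.comp fun a => a ^ 2).integrable _
    · exact ((G.fd_dep o g k).comp fun a => a ^ 2).integrable _
    · exact (((G.fd_dep o g k).comp₂ (hd.mono (by omega)) fun a b => 2 * (a * b))).integrable _
  rw [integral_g_sq, h0] at h1
  have h2 : 0 ≤ ∫ u, mean g (G.walk o u k) ^ 2 ∂unif D := integral_nonneg fun u => sq_nonneg _
  linarith

lemma integral_bd_sq_le (k : ℕ) : ∫ u, G.bd o g k u ^ 2 ∂unif D ≤ G.en o g k := by
  have hd : Dep (k + 1) (fun u => G.bm o g k (G.walk o u (k + 1))) :=
    (G.walk_dep o (k + 1)).comp (G.bm o g k)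
  have h0 := G.bd_orth o g k (G.bm o g k)
  have h1 : ∫ u, g (G.walk o u k) (u k) ^ 2 ∂unif D
      = ∫ u, G.bd o g k u ^ 2 ∂unif D
        + 2 * ∫ u, G.bd o g k u * G.bm o g k (G.walk o u (k + 1)) ∂unif D
        + ∫ u, G.bm o g k (G.walk o u (k + 1)) ^ 2 ∂unif D := by
    rw [← integral_const_mul, ← integral_add, ← integral_add]
    · refine integral_congr_ae (Eventually.of_forall fun u => ?_)
      simp only [bd]
      ring
    · refine Integrable.add ?_ ?_
      · exact ((G.bd_dep o g k).comp fun a => a ^ 2).integrable _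
      · exact (((G.bd_dep o g k).comp₂ hd fun a b => 2 * (a * b))).integrable _
    · exact (hd.comp fun a => a ^ 2).integrable _
    · exact ((G.bd_dep o g k).comp fun a => a ^ 2).integrable _
    · exact (((G.bd_dep o g k).comp₂ hd fun a b => 2 * (a * b))).integrable _
  rw [integral_g_sq, h0] at h1
  have h2 : 0 ≤ ∫ u, G.bm o g k (G.walk o u (k + 1)) ^ 2 ∂unif D :=
    integral_nonneg fun u => sq_nonneg _
  linarith

/-- The drift of the reversed walk. -/
noncomputable def drift (k : ℕ) (y : V) : ℝ := G.bm o g k y + mean g y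

lemma en_nonneg (k : ℕ) : 0 ≤ G.en o g k := integral_nonneg fun _ => energy_nonneg _ _

lemma integral_drift_le (hA : StmtA) (hg : ∀ v e, g (G.nxt v e) (G.flip e) = - g v e) (k : ℕ) :
    ∫ u, |G.drift o g k (G.walk o u (k + 1))| ∂unif D ≤
      √(2 * (Fintype.card D : ℝ) * (ent (G.heat o (k + 1)) - ent (G.heat o k))) *
        √(G.en o g (k + 1)) := by
  have h1 := (hA V D G (G.heat o k) (G.heat_nonneg o k) (G.heat_support_finite o k) g).2
  rw [G.integral_walk o (k + 1) (fun v => |G.drift o g k v|)]
  have h2 : G.en o g (k + 1) = ∑' y, G.avg (G.heat o k) y * energy g y :=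
    G.integral_walk o (k + 1) (energy g)
  rw [h2]
  refine le_trans (le_of_eq ?_) h1
  refine tsum_congr fun y => ?_
  have hn : 0 ≤ G.heat o (k + 1) y := G.heat_nonneg o _ _
  have hab : G.heat o (k + 1) y * |G.drift o g k y| = |G.heat o (k + 1) y * G.drift o g k y| := by
    rw [abs_mul, abs_of_nonneg hn]
  rw [hab]
  have h3 : G.heat o (k + 1) y * G.drift o g k y
      = - mean (fun v e => g v e * (G.heat o k (G.nxt v e) - G.avg (G.heat o k) v)) y := by
    unfold drift
    rw [mul_add, heat_mul_bm]
    simp only [hg]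
    simp only [mean]
    rw [← mul_div_assoc, Finset.mul_sum, ← add_div, ← neg_div]
    congr 1
    rw [← Finset.sum_add_distrib, ← Finset.sum_neg_distrib]
    refine Finset.sum_congr rfl fun e _ => ?_
    have : G.heat o (k + 1) y = G.avg (G.heat o k) y := rfl
    rw [this]
    ring
  rw [h3, abs_neg]

/-- The decomposition. -/
lemma decomp_id (j : ℕ) (u : ℕ → D) :
    2 * ∑ k ∈ Finset.range j, g (G.walk o u k) (u k) =
      ∑ k ∈ Finset.range j, G.fd o g k u + ∑ k ∈ Finset.range j, G.bd o g k u
      + (mean g o - mean g (G.walk o u j))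
      + ∑ k ∈ Finset.range j, G.drift o g k (G.walk o u (k + 1)) := by
  induction j with
  | zero => simp [walk]
  | succ j ih =>
    simp only [Finset.sum_range_succ]
    rw [mul_add, ih]
    simp only [fd, bd, drift]
    ring

end LGraph

end Pool.Agent.Helper58.Qip
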