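import Mathlib

set_option autoImplicit false

/-!
Definitions for MP_5bf1c5_pr: random walks on discrete point processes.
-/

open MeasureTheory ProbabilityTheory Filter Topology
open scoped ENNReal NNReal

namespace Pool.Agent.Helper58.Qip

/-- Sites of the lattice `ℤ^d`. -/
abbrev Site (d : ℕ) := Fin d → ℤ

/-- Configurations `{0,1}^{ℤ^d}`. -/
abbrev Conf (d : ℕ) := Site d → Bool

/-- The `2 d` directions; `(i, true)` is `e_i` and `(i, false)` is `-e_i`. -/
abbrev Dir (d : ℕ) := Fin d × Bool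

/-- The unit vector of a direction. -/
def unit {d : ℕ} (e : Dir d) : Site d := Pi.single e.1 (if e.2 then 1 else -1)

/-- The opposite direction. -/
def flip {d : ℕ} (e : Dir d) : Dir d := (e.1, !e.2)

/-- The shift `θ_x`, `(θ_x ω)(y) = ω (x + y)`. -/
def shift {d : ℕ} (x : Site d) (ω : Conf d) : Conf d := fun y => ω (x + y)

/-- `f_e(ω) = min {k > 0 : ω (k e) = 1}` (and `0` if there is no such `k`). -/
noncomputable def hop {d : ℕ} (e : Dir d) (ω : Conf d) : ℕ :=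
  sInf {k : ℕ | 0 < k ∧ ω ((k : ℤ) • unit e) = true}

/-- The coordinate nearest point of `v` in direction `e`. -/
noncomputable def nxt {d : ℕ} (ω : Conf d) (v : Site d) (e : Dir d) : Site d :=
  v + (hop e (shift v ω) : ℤ) • unit e

/-- The walk started at the origin, in the configuration `ω`, with the choices of
directions `u`. -/
noncomputable def walk {d : ℕ} (ω : Conf d) (u : ℕ → Dir d) : ℕ → Site d
  | 0 => 0
  | n + 1 => nxt ω (walk ω u n) (u n)

/-- The law of an i.i.d. sequence of uniformly distributed elements of a finite set. -/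
noncomputable def unif (D : Type) [MeasurableSpace D] : Measure (ℕ → D) :=
  Measure.infinitePi fun _ => uniformOn (Set.univ : Set D)

/-- The Palm measure `P = Q( · | ω(0) = 1)`. -/
noncomputable def palm {d : ℕ} (Q : Measure (Conf d)) : Measure (Conf d) :=
  ProbabilityTheory.cond Q {ω | ω 0 = true}

/-- The rescaled path `t ↦ n^{-1/2} X_{⌊n t⌋}`. -/
noncomputable def path {d : ℕ} (ω : Conf d) (u : ℕ → Dir d) (n : ℕ) (t : ℝ≥0) :
    EuclideanSpace ℝ (Fin d) :=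
  WithLp.toLp 2 fun i => (walk ω u ⌊(n : ℝ≥0) * t⌋₊ i : ℝ) / √(n : ℝ)

/-- Right continuous functions with left limits. -/
def Cadlag {E : Type*} [TopologicalSpace E] (x : ℝ≥0 → E) : Prop :=
  ∀ t, ContinuousWithinAt x (Set.Ici t) t ∧ ∃ l, Tendsto x (𝓝[<] t) (𝓝 l)

/-- Convergence in the Skorokhod (J1) topology of `D([0,∞), E)`. -/
def J1Tendsto {E : Type*} [PseudoMetricSpace E] (x : ℕ → ℝ≥0 → E) (y : ℝ≥0 → E) : Prop :=
  ∃ τ : ℕ → ℝ≥0 ≃o ℝ≥0, ∀ T : ℝ≥0, ∀ ε : ℝ, 0 < ε → ∀ᶠ n in atTop,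
    ∀ t, t ≤ T → dist (τ n t) t < ε ∧ dist (x n t) (y (τ n t)) < ε

/-- Real functionals on paths which are continuous on `D([0,∞), E)` with the Skorokhod
topology. -/
def J1Continuous {E : Type*} [PseudoMetricSpace E] (F : (ℝ≥0 → E) → ℝ) : Prop :=
  ∀ (x : ℕ → ℝ≥0 → E) (y : ℝ≥0 → E), (∀ n, Cadlag (x n)) → Cadlag y → J1Tendsto x y →
    Tendsto (fun n => F (x n)) atTop (𝓝 (F y))

/-- `B` is a Brownian motion (started at `0`, without drift) with covariance matrix `D`. -/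
structure IsBM {d : ℕ} (D : Matrix (Fin d) (Fin d) ℝ) {W : Type} [MeasurableSpace W]
    (B : ℝ≥0 → W → EuclideanSpace ℝ (Fin d)) (ν : Measure W) : Prop where
  start : ∀ᵐ w ∂ν, B 0 w = 0
  incr : HasIndepIncrements B ν
  law : ∀ s t : ℝ≥0, s ≤ t →
    HasLaw (B t - B s) (multivariateGaussian 0 (((t : ℝ) - (s : ℝ)) • D)) ν
  cont : ∀ᵐ w ∂ν, Continuous fun t => B t w

/-- Convergence in law, in the Skorokhod space `D([0,∞), ℝ^d)`, of the processes `Y n`,
defined on the probability space `(S, μ)`, to a Brownian motion with covariance matrix `D`: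
convergence of the finite-dimensional distributions, tightness, and convergence of the
expectations of all bounded continuous functionals. -/
structure ConvBM {d : ℕ} (D : Matrix (Fin d) (Fin d) ℝ) {S : Type} [MeasurableSpace S]
    (Y : ℕ → S → ℝ≥0 → EuclideanSpace ℝ (Fin d)) (μ : Measure S) : Prop where
  fdd : ∀ (r : ℕ) (t : Fin r → ℝ≥0) (θ : Fin r → EuclideanSpace ℝ (Fin d)),
    Tendsto (fun n => ∫ u, Complex.exp (Complex.I * ∑ j, (inner ℝ (θ j) (Y n u (t j)) : ℝ)) ∂μ)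
      atTop (𝓝 (Complex.exp (-(1 / 2) *
        ∑ j, ∑ k, ((min (t j) (t k) : ℝ≥0) : ℝ) * ∑ a, ∑ b, θ j a * D a b * θ k b)))
  tight : ∀ (T : ℝ≥0) (ε η : ℝ), 0 < ε → 0 < η → ∃ δ : ℝ, 0 < δ ∧ ∀ᶠ n in atTop,
    μ {u | ∃ s t : ℝ≥0, s ≤ T ∧ t ≤ T ∧ dist s t ≤ δ ∧ ε < dist (Y n u s) (Y n u t)}
      ≤ ENNReal.ofReal η
  func : ∀ (F : (ℝ≥0 → EuclideanSpace ℝ (Fin d)) → ℝ), (∃ C, ∀ x, |F x| ≤ C) →
    J1Continuous F → ∀ (W : Type) [MeasurableSpace W] (ν : Measure W)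
      (B : ℝ≥0 → W → EuclideanSpace ℝ (Fin d)), IsBM D B ν →
      Tendsto (fun n => ∫ u, F (Y n u) ∂μ) atTop (𝓝 (∫ w, F (fun t => B t w) ∂ν))

/-- The main statement: the quenched invariance principle. -/
def Main : Prop :=
  ∀ (d : ℕ), 2 ≤ d → ∀ Q : Measure (Conf d), IsProbabilityMeasure Q →
    (∀ i : Fin d, Ergodic (shift (Pi.single i 1)) Q) →
    Q {ω | ∀ x, ω x = false} < 1 →
    (∃ ε : ℝ, 0 ≤ ε ∧ ∀ e : Dir d,
      ∫⁻ ω, ENNReal.ofReal ((hop e ω : ℝ) ^ (2 + ε)) ∂palm Q < ⊤) →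
    ∃ D : Matrix (Fin d) (Fin d) ℝ, D.PosSemidef ∧
      ∀ᵐ ω ∂palm Q, ConvBM D (fun n u => path ω u n) (unif (Dir d))

end Pool.Agent.Helper58.Qip
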