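import Pool.Agent.Helper58.Qip.Stmts2

set_option autoImplicit false
set_option linter.unusedSectionVars false

/-!
The environment chain and the walk.
-/

open MeasureTheory ProbabilityTheory Filter Topology
open scoped ENNReal NNReal

namespace Pool.Agent.Helper58.Qip

namespace RevSys

variable {Ω D : Type} [MeasurableSpace Ω] {P : Measure Ω} (S : RevSys Ω D P)

lemma env_dep (ω : Ω) (n : ℕ) : Dep n (fun u => S.env ω u n) := by
  induction n with
  | zero => intro u u' _; rfl
  | succ n ih =>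
    intro u u' hu
    change S.σ (u n) (S.env ω u n) = S.σ (u' n) (S.env ω u' n)
    have h1 : S.env ω u n = S.env ω u' n := ih u u' fun i hi => hu i (by omega)
    rw [h1, hu n (by omega)]

variable [Fintype D]

lemma Rit_R (f : Ω → ℝ) (n : ℕ) : S.Rit (S.R f) n = S.Rit f (n + 1) := by
  induction n with
  | zero => rfl
  | succ n ih =>
    change S.R (S.Rit (S.R f) n) = S.R (S.Rit f (n + 1))
    rw [ih]

variable [Nonempty D] [MeasurableSpace D] [MeasurableSingletonClass D]

lemma Rit_eq (f : Ω → ℝ) (n : ℕ) (ω : Ω) :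
    S.Rit f n ω = ∫ u, f (S.env ω u n) ∂unif D := by
  induction n generalizing f with
  | zero => simp [Rit, env]
  | succ n ih =>
    rw [← S.Rit_R f n, ih (S.R f)]
    have h1 : ∫ u, f (S.env ω u (n + 1)) ∂unif D
        = ∫ u, (fun (u : ℕ → D) (e : D) => f (S.σ e (S.env ω u n))) u (u n) ∂unif D := rfl
    rw [h1, integral_step (fun e => (S.env_dep ω n).comp fun x => f (S.σ e x))]
    rfl

end RevSys

/-! ### The environment seen from the walk -/

lemma shift_walk_succ {d : ℕ} (ω : Conf d) (u : ℕ → Dir d) (n : ℕ) :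
    shift (walk ω u (n + 1)) ω = sig (u n) (shift (walk ω u n) ω) := by
  rw [sig_shift]; rfl

/-- The environment system. -/
noncomputable def envSys {d : ℕ} (Q : Measure (Conf d))
    (h1 : ∀ᵐ ω ∂palm Q, ω 0 = true ∧ Good ω)
    (h2 : ∀ e : Dir d, MeasurePreserving (sig e) (palm Q) (palm Q)) :
    RevSys (Conf d) (Dir d) (palm Q) where
  σ := sig
  mp := h2
  flip := flip
  flip_flip := flip_flip
  inv e := by
    filter_upwards [h1] with ω hω
    exact sig_flip_sig hω.1 (hω.2 0 hω.1) e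

lemma envSys_env {d : ℕ} (Q : Measure (Conf d)) (h1 : ∀ᵐ ω ∂palm Q, ω 0 = true ∧ Good ω)
    (h2 : ∀ e : Dir d, MeasurePreserving (sig e) (palm Q) (palm Q)) (ω : Conf d)
    (u : ℕ → Dir d) (n : ℕ) : (envSys Q h1 h2).env ω u n = shift (walk ω u n) ω := by
  induction n with
  | zero => simp [RevSys.env, walk]
  | succ n ih =>
    rw [shift_walk_succ, ← ih]
    rfl

lemma walk_dep {d : ℕ} (ω : Conf d) (n : ℕ) : Dep n (fun u : ℕ → Dir d => walk ω u n) := by
  induction n with
  | zero => intro u u' _; rfl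
  | succ n ih =>
    intro u u' hu
    change nxt ω (walk ω u n) (u n) = nxt ω (walk ω u' n) (u' n)
    have h1 : walk ω u n = walk ω u' n := ih u u' fun i hi => hu i (by omega)
    rw [h1, hu n (by omega)]

/-- The displacement field, coordinate `i`. -/
noncomputable def Phi {d : ℕ} (i : Fin d) (ω : Conf d) (e : Dir d) : ℝ :=
  (hop e ω : ℝ) * (unit e i : ℝ)

lemma walk_eq_sum {d : ℕ} (ω : Conf d) (u : ℕ → Dir d) (n : ℕ) (i : Fin d) :
    (walk ω u n i : ℝ) = ∑ k ∈ Finset.range n, Phi i (shift (walk ω u k) ω) (u k) := by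
  induction n with
  | zero => simp [walk]
  | succ n ih =>
    rw [Finset.sum_range_succ, ← ih]
    have h : walk ω u (n + 1) i =
        walk ω u n i + (hop (u n) (shift (walk ω u n) ω) : ℤ) * unit (u n) i := by
      change (nxt ω (walk ω u n) (u n)) i = _
      rw [nxt_eq]
      simp
    rw [h]
    simp only [Phi]
    push_cast
    ring

lemma Phi_flip {d : ℕ} {ω : Conf d} (h0 : ω 0 = true) (h : GoodAt ω 0) (i : Fin d) (e : Dir d) :
    Phi i (sig e ω) (flip e) = - Phi i ω e := by
  have h1 := hop_nxt h0 h e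
  have h2 := sig_shift ω 0 e
  rw [shift_zero] at h1 h2
  rw [← h2] at h1
  unfold Phi
  rw [h1, unit_flip]
  simp

lemma unit_apply_sq_le {d : ℕ} (e : Dir d) (i : Fin d) : ((unit e i : ℤ) : ℝ) ^ 2 ≤ 1 := by
  rcases e with ⟨j, b⟩
  by_cases h : i = j
  · subst h
    cases b <;> simp [unit]
  · simp [unit, h]

lemma abs_unit_apply_le {d : ℕ} (e : Dir d) (i : Fin d) : |((unit e i : ℤ) : ℝ)| ≤ 1 := by
  have := unit_apply_sq_le e i
  exact abs_le_one_iff_mul_self_le_one.2 (by nlinarith)

lemma sum_abs_unit {d : ℕ} (e : Dir d) : ∑ i, |((unit e i : ℤ) : ℝ)| = 1 := by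
  rcases e with ⟨j, b⟩
  rw [Finset.sum_eq_single j]
  · cases b <;> simp [unit]
  · intro i _ h
    simp [unit, h]
  · simp

/-- The field of jump lengths. -/
noncomputable def hopf {d : ℕ} (ω : Conf d) (e : Dir d) : ℝ := (hop e ω : ℝ)

/-- A field on configurations seen on the graph of a configuration. -/
def onSite {d : ℕ} (ω : Conf d) (g : Conf d → Dir d → ℝ) (v : {v : Site d // ω v = true})
    (e : Dir d) : ℝ := g (shift v.1 ω) e

lemma energy_onSite {d : ℕ} (ω : Conf d) (g : Conf d → Dir d → ℝ)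
    (v : {v : Site d // ω v = true}) : energy (onSite ω g) v = energy g (shift v.1 ω) := rfl

/-- The mean energy of a field at time `k`. -/
noncomputable def enC {d : ℕ} [Nonempty (Dir d)] (ω : Conf d) (g : Conf d → Dir d → ℝ)
    (k : ℕ) : ℝ := ∫ u, energy g (shift (walk ω u k) ω) ∂unif (Dir d)

lemma en_onSite {d : ℕ} [Nonempty (Dir d)] (ω : Conf d) (hω : Good ω) (h0 : ω 0 = true)
    (g : Conf d → Dir d → ℝ) (k : ℕ) :
    (siteGraph ω hω).en ⟨0, h0⟩ (onSite ω g) k = enC ω g k := by
  unfold LGraph.en enC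
  refine integral_congr_ae (Eventually.of_forall fun u => ?_)
  simp only [energy_onSite, siteGraph_walk]

lemma enC_nonneg {d : ℕ} [Nonempty (Dir d)] (ω : Conf d) (g : Conf d → Dir d → ℝ)
    (k : ℕ) : 0 ≤ enC ω g k := integral_nonneg fun _ => energy_nonneg _ _

/-- The entropy of the walk at time `k`. -/
noncomputable def entC {d : ℕ} (ω : Conf d) (hω : Good ω) (h0 : ω 0 = true) (k : ℕ) : ℝ :=
  LGraph.ent ((siteGraph ω hω).heat ⟨0, h0⟩ k)

/-- Dyadic entropy increments are bounded. -/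
def EntBdd {d : ℕ} (ω : Conf d) (hω : Good ω) (h0 : ω 0 = true) : Prop :=
  Monotone (entC ω hω h0) ∧ ∃ K : ℝ, 0 < K ∧ ∀ i : ℕ,
    entC ω hω h0 (2 ^ (i + 1)) - entC ω hω h0 (2 ^ i) ≤ K

lemma nash_bass (hA : StmtA) (hB : StmtB) (hU : StmtU) (hC : StmtC1) {d : ℕ} (hd : 2 ≤ d)
    (ω : Conf d) (hω : Good ω) (h0 : ω 0 = true) [Nonempty (Dir d)] (C3 : ℝ)
    (hC3 : ∀ k : ℕ, ∑ j ∈ Finset.range (k + 1), enC ω hopf j ≤ C3 * ((k : ℝ) + 1)) :
    EntBdd ω hω h0 := by
  set G := siteGraph ω hω with hG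
  set o : {v : Site d // ω v = true} := ⟨0, h0⟩ with ho
  have hmono : Monotone (entC ω hω h0) := monotone_nat_of_le_succ fun k =>
    (hA _ _ G (G.heat o k) (G.heat_nonneg o k) (G.heat_support_finite o k) fun _ _ => 0).1
  refine ⟨hmono, ?_⟩
  obtain ⟨C0, hC0⟩ := hB d hd
  obtain ⟨C1, hC1⟩ := hU d (by omega)
  -- the field of the norm
  set nrm : {v : Site d // ω v = true} → ℝ := fun v => ∑ i, |(v.1 i : ℝ)| with hnrm
  set g : {v : Site d // ω v = true} → Dir d → ℝ := fun v e => nrm (G.nxt v e) - nrm v with hg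
  have hanti : ∀ v e, g (G.nxt v e) (G.flip e) = - g v e := by
    intro v e
    simp only [hg, G.nxt_nxt]
    ring
  have hgle : ∀ v e, |g v e| ≤ onSite ω hopf v e := by
    intro v e
    have h1 : ∀ i, |((G.nxt v e).1 i : ℝ)| ≤ |(v.1 i : ℝ)| +
        (hop e (shift v.1 ω) : ℝ) * |((unit e i : ℤ) : ℝ)| := by
      intro i
      have : ((G.nxt v e).1 i : ℤ) = v.1 i + (hop e (shift v.1 ω) : ℤ) * unit e i := by
        change (nxt ω v.1 e) i = _
        rw [nxt_eq]
        simp
      rw [this]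
      push_cast
      refine (abs_add_le _ _).trans ?_
      rw [abs_mul, abs_of_nonneg (Nat.cast_nonneg' (α := ℝ) _)]
    have h2 : ∀ i, |(v.1 i : ℝ)| ≤ |((G.nxt v e).1 i : ℝ)| +
        (hop e (shift v.1 ω) : ℝ) * |((unit e i : ℤ) : ℝ)| := by
      intro i
      have : (v.1 i : ℤ) = (G.nxt v e).1 i - (hop e (shift v.1 ω) : ℤ) * unit e i := by
        change _ = (nxt ω v.1 e) i - _
        rw [nxt_eq]
        simp
      have h3 : (v.1 i : ℝ) = ((G.nxt v e).1 i : ℝ) -
          (hop e (shift v.1 ω) : ℝ) * ((unit e i : ℤ) : ℝ) := by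
        exact_mod_cast this
      rw [h3]
      refine (abs_sub _ _).trans ?_
      rw [abs_mul, abs_of_nonneg (Nat.cast_nonneg' (α := ℝ) _)]
    have h3 : nrm (G.nxt v e) ≤ nrm v + (hop e (shift v.1 ω) : ℝ) := by
      calc nrm (G.nxt v e) ≤ ∑ i, (|(v.1 i : ℝ)| +
            (hop e (shift v.1 ω) : ℝ) * |((unit e i : ℤ) : ℝ)|) :=
            Finset.sum_le_sum fun i _ => h1 i
        _ = nrm v + (hop e (shift v.1 ω) : ℝ) := by
            rw [Finset.sum_add_distrib, ← Finset.mul_sum, sum_abs_unit, mul_one]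
    have h4 : nrm v ≤ nrm (G.nxt v e) + (hop e (shift v.1 ω) : ℝ) := by
      calc nrm v ≤ ∑ i, (|((G.nxt v e).1 i : ℝ)| +
            (hop e (shift v.1 ω) : ℝ) * |((unit e i : ℤ) : ℝ)|) :=
            Finset.sum_le_sum fun i _ => h2 i
        _ = nrm (G.nxt v e) + (hop e (shift v.1 ω) : ℝ) := by
            rw [Finset.sum_add_distrib, ← Finset.mul_sum, sum_abs_unit, mul_one]
    change |nrm (G.nxt v e) - nrm v| ≤ (hop e (shift v.1 ω) : ℝ)
    rw [abs_le]
    constructor <;> linarith
  have hen : ∀ k, G.en o g k ≤ enC ω hopf k := by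
    intro k
    rw [← en_onSite ω hω h0 hopf k]
    refine integral_mono (((G.walk_dep o k).comp (energy g)).integrable _)
      (((G.walk_dep o k).comp (energy (onSite ω hopf))).integrable _) fun u => ?_
    simp only [energy]
    refine div_le_div_of_nonneg_right (Finset.sum_le_sum fun e _ => ?_) (Nat.cast_nonneg _)
    have h9 := hgle (G.walk o u k) e
    rw [← sq_abs (g (G.walk o u k) e)]
    have h10 : 0 ≤ |g (G.walk o u k) e| := abs_nonneg _
    exact pow_le_pow_left₀ h10 h9 2
  have hC3' : ∀ k : ℕ, enC ω hopf k ≤ C3 * ((k : ℝ) + 1) := fun k =>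
    (Finset.single_le_sum (f := enC ω hopf) (fun j _ => enC_nonneg ω hopf j)
      (Finset.mem_range.2 (Nat.lt_succ_self k))).trans (hC3 k)
  set a : ℕ → ℝ := fun k => ∫ u, nrm (G.walk o u k) ∂unif (Dir d) with ha
  have hnn : ∀ v, 0 ≤ nrm v := fun v => Finset.sum_nonneg fun _ _ => abs_nonneg _
  have ha0 : ∀ k, 0 ≤ a k := fun k => integral_nonneg fun _ => hnn _
  have hsum : ∀ k (u : ℕ → Dir d), ∑ j ∈ Finset.range k, g (G.walk o u j) (u j)
      = nrm (G.walk o u k) := by
    intro k u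
    induction k with
    | zero => simp [LGraph.walk, hnrm, ho]
    | succ k ih =>
      rw [Finset.sum_range_succ, ih]
      simp only [hg]
      have : G.nxt (G.walk o u k) (u k) = G.walk o u (k + 1) := rfl
      rw [this]
      ring
  have hm : (0 : ℝ) < (Fintype.card (Dir d) : ℝ) := card_pos'
  have hC30 : 0 ≤ C3 := by
    have := (enC_nonneg ω hopf 0).trans (hC3' 0)
    simpa using this
  obtain ⟨K, hK⟩ := hC (d : ℝ) (√(2 * (Fintype.card (Dir d) : ℝ)) / 2) C0 C1 (√C3) C3
    (entC ω hω h0) a (enC ω hopf) (by positivity) (by positivity) hmono ha0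
    (enC_nonneg ω hopf) (fun k hk => hC0 ω hω o k hk)
    (fun k => by
      have h := hC1 _ (fun v : {v : Site d // ω v = true} => v.1) Subtype.val_injective
        (G.heat o k) (G.heat_nonneg o k) (G.heat_support_finite o k) (G.heat_sum o k)
      have h2 : a k = ∑' v, G.heat o k v * ∑ i, |(v.1 i : ℝ)| := G.integral_walk o k nrm
      rw [h2]
      exact h)
    (fun k => by
      have h := G.decomp_mean o g hA hanti k
      have h2 : a k = ∫ u, ∑ j ∈ Finset.range k, g (G.walk o u j) (u j) ∂unif (Dir d) := by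
        refine integral_congr_ae (Eventually.of_forall fun u => ?_)
        simp only
        rw [hsum]
      rw [h2]
      refine (le_abs_self _).trans (h.trans ?_)
      have e0 : √(G.en o g 0) ≤ √C3 * √((k : ℝ) + 1) := by
        rw [← Real.sqrt_mul hC30]
        apply Real.sqrt_le_sqrt
        have h5 := (hen 0).trans (hC3' 0)
        simp only [Nat.cast_zero, zero_add, mul_one] at h5
        have hk0 : (0 : ℝ) ≤ (k : ℝ) := Nat.cast_nonneg _
        nlinarith
      have e1 : √(G.en o g k) ≤ √C3 * √((k : ℝ) + 1) := by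
        rw [← Real.sqrt_mul hC30]
        exact Real.sqrt_le_sqrt ((hen k).trans (hC3' k))
      have e2 : (∑ j ∈ Finset.range k, G.dterm o g j) / 2 ≤
          √(2 * (Fintype.card (Dir d) : ℝ)) / 2 * ∑ j ∈ Finset.range k,
            √(entC ω hω h0 (j + 1) - entC ω hω h0 j) * √(enC ω hopf (j + 1)) := by
        rw [Finset.mul_sum, Finset.sum_div]
        refine Finset.sum_le_sum fun j _ => ?_
        unfold LGraph.dterm
        have e3 : √(2 * (Fintype.card (Dir d) : ℝ) *
            (LGraph.ent (G.heat o (j + 1)) - LGraph.ent (G.heat o j)))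
            = √(2 * (Fintype.card (Dir d) : ℝ)) *
              √(entC ω hω h0 (j + 1) - entC ω hω h0 j) :=
          Real.sqrt_mul (by positivity) _
        rw [e3]
        have e4 : √(G.en o g (j + 1)) ≤ √(enC ω hopf (j + 1)) := Real.sqrt_le_sqrt (hen _)
        have e5 : 0 ≤ √(2 * (Fintype.card (Dir d) : ℝ)) *
              √(entC ω hω h0 (j + 1) - entC ω hω h0 j) := by positivity
        nlinarith [mul_le_mul_of_nonneg_left e4 e5]
      linarith)
    hC3
  refine ⟨max K 1, by positivity, fun i => (hK i).trans (le_max_left _ _)⟩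

end Pool.Agent.Helper58.Qip
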