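import Pool.Agent.Helper58.Qip.Ae

set_option autoImplicit false
set_option linter.unusedSectionVars false

/-!
Almost every environment is typical, and the main theorem.
-/

open MeasureTheory ProbabilityTheory Filter Topology
open scoped ENNReal NNReal

namespace Pool.Agent.Helper58.Qip

lemma unif_prob (D : Type) [Fintype D] [Nonempty D] [MeasurableSpace D]
    [MeasurableSingletonClass D] : IsProbabilityMeasure (unif D) := by infer_instance

/-- The packet statements together. -/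
structure Packets : Prop where
  A : StmtA
  K : StmtK
  B : StmtB
  U : StmtU
  C1 : StmtC1
  C2 : StmtC2
  D1 : StmtD1
  D2 : StmtD2
  D3 : StmtD3
  E : StmtE
  E2 : StmtE2
  F : StmtF
  G : StmtG
  I : StmtI
  T : StmtT
  M : StmtM

lemma main_of_packets (hP : Packets) : Main := by
  intro d hd Q hQ1 hQ2 hQ3 ⟨ε0, hε0, hmom⟩
  have hQ : Env d Q := ⟨hQ1, hQ2, hQ3⟩
  obtain ⟨hprob, hgood, hmp⟩ := hP.D1 d Q (by omega) hQ
  have : Nonempty (Fin d) := ⟨⟨0, by omega⟩⟩
  have : Nonempty (Dir d) := inferInstance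
  set P := palm Q with hPdef
  set S : RevSys (Conf d) (Dir d) P := envSys Q hgood hmp with hS
  have hErg : S.Erg := fun h hh hinv => hP.D3 d Q (by omega) hQ h hh hinv
  have hhop2 : ∀ e : Dir d, Integrable (fun ω => hopf ω e ^ 2) P :=
    fun e => integrable_hopf_sq e hε0 (hmom e)
  have hanti : ∀ i : Fin d, ∀ᵐ ω ∂P, ∀ e, Phi i (S.σ e ω) (S.flip e) = - Phi i ω e := by
    intro i
    filter_upwards [hgood] with ω hω e
    exact Phi_flip hω.1 (hω.2 0 hω.1) i e
  choose Ψ hΨm hΨ2 hΨa hΨd hΨg using fun i : Fin d => hP.F (Conf d) (Dir d) P S (Phi i)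
    (measurable_Phi i) (fun e => integrable_Phi_sq i e (hhop2 e)) (hanti i)
  choose g hgm hgb hge using fun (i : Fin d) (j : ℕ) => hΨg i (1 / ((j : ℝ) + 1)) (by positivity)
  set Dm : Matrix (Fin d) (Fin d) ℝ := Matrix.of fun a b => ∫ ω, covf Ψ a b ω ∂P with hDm
  have hpos : Dm.PosSemidef := posSemidef_cov hΨm hΨ2
  refine ⟨Dm, hpos, ?_⟩
  -- the fields
  have hfm : ∀ (a : Fin d) (j : ℕ) (e : Dir d), Measurable fun ω =>
      subGrad (fun ω e => Phi a ω e - Ψ a ω e) (g a j) ω e := by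
    intro a j e
    unfold subGrad
    exact ((measurable_Phi a e).sub (hΨm a e)).sub
      (((hgm a j).comp (Pool.Agent.Helper84.Qip.measurable_sig e)).sub (hgm a j))
  have hfi : ∀ (a : Fin d) (j : ℕ) (e : Dir d), Integrable (fun ω =>
      subGrad (fun ω e => Phi a ω e - Ψ a ω e) (g a j) ω e ^ 2) P := by
    intro a j e
    obtain ⟨C, hC⟩ := hgb a j
    refine Integrable.mono' (g := fun ω => 3 * (Phi a ω e ^ 2 + Ψ a ω e ^ 2 + (2 * C) ^ 2)) ?_
      ((hfm a j e).pow_const 2).aestronglyMeasurable (Eventually.of_forall fun ω => ?_)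
    · exact (((integrable_Phi_sq a e (hhop2 e)).add (hΨ2 a e)).add (integrable_const _)).const_mul _
    · rw [Real.norm_of_nonneg (sq_nonneg _)]
      unfold subGrad
      have h1 : |g a j (sig e ω) - g a j ω| ≤ 2 * C :=
        (abs_sub _ _).trans (by linarith [hC (sig e ω), hC ω])
      have h2 : (g a j (sig e ω) - g a j ω) ^ 2 ≤ (2 * C) ^ 2 := sq_le_sq' (by
        linarith [neg_abs_le (g a j (sig e ω) - g a j ω)]) ((le_abs_self _).trans h1)
      nlinarith [sq_nonneg (Phi a ω e + Ψ a ω e), sq_nonneg (Phi a ω e - Ψ a ω e),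
        sq_nonneg (Phi a ω e + (g a j (sig e ω) - g a j ω)),
        sq_nonneg (Ψ a ω e - (g a j (sig e ω) - g a j ω))]
  -- ergodic theorems
  have hconv : ∀ (ω : Conf d) (f : Conf d → ℝ) (k : ℕ),
      S.Rit f k ω = ∫ u, f (shift (walk ω u k) ω) ∂unif (Dir d) := by
    intro ω f k
    rw [S.Rit_eq]
    refine integral_congr_ae (Eventually.of_forall fun u => ?_)
    simp only
    rw [hS, envSys_env]
  have hE : ∀ f : Conf d → ℝ, Measurable f → Integrable f P →
      ∀ᵐ ω ∂P, Tendsto (fun n : ℕ => (∑ k ∈ Finset.range n,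
        ∫ u, f (shift (walk ω u k) ω) ∂unif (Dir d)) / (n : ℝ)) atTop (𝓝 (∫ x, f x ∂P)) := by
    intro f hf hfi
    filter_upwards [hP.E (Conf d) (Dir d) P S hErg f hf hfi] with ω hω
    simpa only [hconv] using hω
  have hE2 : ∀ f : Conf d → ℝ, Measurable f → Integrable f P →
      ∀ᵐ ω ∂P, InP (fun n (u : ℕ → Dir d) =>
        (∑ k ∈ Finset.range n, f (envw ω u k)) / (n : ℝ) - ∫ x, f x ∂P) := by
    intro f hf hfi
    filter_upwards [hP.E2 (Conf d) (Dir d) P S hErg f hf hfi] with ω hω ε hε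
    refine (hω ε hε).congr fun n => ?_
    congr 1
    ext u
    simp only [Set.mem_ofPred_eq, hS, envSys_env, envw]
  have a1 := hE (energy hopf) (measurable_energy measurable_hopf) (integrable_energy hhop2)
  have a2 : ∀ᵐ ω ∂P, ∀ (a : Fin d) (j : ℕ), Tendsto (fun n : ℕ => (∑ k ∈ Finset.range n,
        ∫ u, energy (subGrad (fun ω e => Phi a ω e - Ψ a ω e) (g a j)) (shift (walk ω u k) ω)
          ∂unif (Dir d)) / (n : ℝ)) atTop
        (𝓝 (∫ x, energy (subGrad (fun ω e => Phi a ω e - Ψ a ω e) (g a j)) x ∂P)) := by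
    rw [ae_all_iff]
    intro a
    rw [ae_all_iff]
    intro j
    exact hE _ (measurable_energy (hfm a j)) (integrable_energy (hfi a j))
  have a3 : ∀ᵐ ω ∂P, ∀ L : ℕ, Tendsto (fun n : ℕ => (∑ k ∈ Finset.range n,
        ∫ u, Lam Ψ L (shift (walk ω u k) ω) ∂unif (Dir d)) / (n : ℝ)) atTop
        (𝓝 (∫ x, Lam Ψ L x ∂P)) := by
    rw [ae_all_iff]
    intro L
    exact hE _ (measurable_Lam hΨm L) (integrable_Lam hΨm hΨ2 L)
  have a4 : ∀ᵐ ω ∂P, ∀ a : Fin d, Tendsto (fun n : ℕ => (∑ k ∈ Finset.range n,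
        ∫ u, energy (Ψ a) (shift (walk ω u k) ω) ∂unif (Dir d)) / (n : ℝ)) atTop
        (𝓝 (∫ x, energy (Ψ a) x ∂P)) := by
    rw [ae_all_iff]
    intro a
    exact hE _ (measurable_energy (hΨm a)) (integrable_energy (hΨ2 a))
  have a5 : ∀ᵐ ω ∂P, ∀ a b : Fin d, InP (fun n (u : ℕ → Dir d) =>
        (∑ k ∈ Finset.range n, covf Ψ a b (envw ω u k)) / (n : ℝ) - ∫ x, covf Ψ a b x ∂P) := by
    rw [ae_all_iff]
    intro a
    rw [ae_all_iff]
    intro b
    exact hE2 _ (measurable_covf hΨm a b) (integrable_covf hΨm hΨ2 a b)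
  have a6 : ∀ᵐ ω ∂P, ∀ v, ω v = true → ∀ a, ∑ e, Ψ a (shift v ω) e = 0 :=
    hP.D2 d Q (by omega) hQ (fun ω => ∀ a, ∑ e, Ψ a ω e = 0) (ae_all_iff.2 hΨd)
  have a7 : ∀ᵐ ω ∂P, ∀ v, ω v = true → ∀ a e, Ψ a (sig e (shift v ω)) (flip e) =
      - Ψ a (shift v ω) e :=
    hP.D2 d Q (by omega) hQ (fun ω => ∀ a e, Ψ a (sig e ω) (flip e) = - Ψ a ω e)
      (ae_all_iff.2 hΨa)
  filter_upwards [hgood, a1, a2, a3, a4, a5, a6, a7] with ω hω b1 b2 b3 b4 b5 b6 b7
  -- the entropy bound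
  have hent : EntBdd ω hω.2 hω.1 := by
    obtain ⟨C3, hC3⟩ := b1.bddAbove_range
    refine nash_bass hP.A hP.B hP.U hP.C1 hd ω hω.2 hω.1 C3 fun k => ?_
    have h1 := hC3 (Set.mem_range_self (k + 1))
    rw [div_le_iff₀ (by positivity)] at h1
    push_cast at h1
    exact h1
  have htyp : Typ ω Ψ Dm (fun L => ∫ x, Lam Ψ L x ∂P) := by
    refine ⟨hω.1, hω.2, b6, b5, b3, tendsto_Lam hΨm hΨ2, ?_, ?_⟩
    · intro a
      have h1 : Dm a a = ∫ x, energy (Ψ a) x ∂P := by
        simp only [hDm, Matrix.of_apply]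
        refine integral_congr_ae (Eventually.of_forall fun ω => ?_)
        simp only [covf, energy, sq]
      rw [h1]
      exact b4 a
    · intro a T hT δ hδ
      refine neglig_fixed hP.A hP.K hP.C2 ω hω.2 hω.1 hent
        (fun ω e => Phi a ω e - Ψ a ω e) ?_ T hT δ hδ
      intro ε hε
      obtain ⟨j, hj⟩ := exists_nat_one_div_lt hε
      refine ⟨g a j, hgb a j, ?_, ?_⟩
      · intro v hv e
        have hg0 : shift v ω 0 = true := by simpa using hv
        have hg1 : GoodAt (shift v ω) 0 := good_shift hω.2 v 0 hg0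
        unfold subGrad
        simp only
        rw [Phi_flip hg0 hg1, b7 v hv a e, sig_flip_sig hg0 hg1]
        ring
      · have h1 := b2 a j
        have h2 : ∫ x, energy (subGrad (fun ω e => Phi a ω e - Ψ a ω e) (g a j)) x ∂P < ε :=
          lt_of_le_of_lt (hge a j) hj
        filter_upwards [h1.eventually (gt_mem_nhds h2), eventually_ge_atTop 1] with n hn hn1
        have hn0 : (0 : ℝ) < n := by exact_mod_cast hn1
        rw [div_lt_iff₀ hn0] at hn
        exact hn.le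
  exact convBM_of_typ Ψ ω htyp hP.T hP.G hP.I hP.M hpos

end Pool.Agent.Helper58.Qip
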