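import Pool.Agent.Helper58.Qip.Clt2

set_option autoImplicit false
set_option linter.unusedSectionVars false

/-!
Convergence to Brownian motion in a typical environment.
-/

open MeasureTheory ProbabilityTheory Filter Topology
open scoped ENNReal NNReal

namespace Pool.Agent.Helper58.Qip

section general

variable {D : Type} [Fintype D] [Nonempty D] [MeasurableSpace D] [MeasurableSingletonClass D]

lemma dep_integrable_exp {N : ℕ} {X : (ℕ → D) → ℝ} (hX : Dep N X) :
    Integrable (fun u => Complex.exp (Complex.I * (X u : ℂ))) (unif D) := by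
  refine Integrable.of_bound ?_ 1 (Eventually.of_forall fun u => ?_)
  · exact (Dep.measurable (hX.comp fun x : ℝ => Complex.exp (Complex.I * (x : ℂ)))).aestronglyMeasurable
  · rw [mul_comm, Complex.norm_exp_ofReal_mul_I]

lemma norm_exp_sub_le (x y : ℝ) :
    ‖Complex.exp (Complex.I * (x : ℂ)) - Complex.exp (Complex.I * (y : ℂ))‖ ≤ |x - y| := by
  have h1 : Complex.exp (Complex.I * (x : ℂ)) - Complex.exp (Complex.I * (y : ℂ)) =
      Complex.exp (Complex.I * (y : ℂ)) * (Complex.exp (Complex.I * ((x - y : ℝ) : ℂ)) - 1) := by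
    rw [mul_sub, ← Complex.exp_add, mul_one]
    congr 2
    push_cast
    ring
  rw [h1, norm_mul, mul_comm Complex.I (y : ℂ), Complex.norm_exp_ofReal_mul_I, one_mul]
  have := Real.norm_exp_I_mul_ofReal_sub_one_le (x := x - y)
  simpa using this

/-- Perturbation of characteristic functions. -/
lemma char_perturb {X M : ℕ → (ℕ → D) → ℝ} (hX : ∀ n, ∃ N, Dep N (X n))
    (hM : ∀ n, ∃ N, Dep N (M n)) (h : InP (fun n u => X n u - M n u)) {z : ℂ}
    (hz : Tendsto (fun n => ∫ u, Complex.exp (Complex.I * (M n u : ℂ)) ∂unif D) atTop (𝓝 z)) :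
    Tendsto (fun n => ∫ u, Complex.exp (Complex.I * (X n u : ℂ)) ∂unif D) atTop (𝓝 z) := by
  have hdiff : Tendsto (fun n => ∫ u, Complex.exp (Complex.I * (X n u : ℂ)) ∂unif D -
      ∫ u, Complex.exp (Complex.I * (M n u : ℂ)) ∂unif D) atTop (𝓝 0) := by
    rw [Metric.tendsto_atTop]
    intro ε hε
    have h1 := h (ε / 4) (by linarith)
    obtain ⟨N, hN⟩ := eventually_atTop.1 (h1.eventually (gt_mem_nhds
      (show (0 : ℝ) < ε / 4 by linarith)))
    refine ⟨N, fun n hn => ?_⟩
    obtain ⟨N1, hN1⟩ := hX n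
    obtain ⟨N2, hN2⟩ := hM n
    rw [dist_zero_right, ← integral_sub (dep_integrable_exp hN1) (dep_integrable_exp hN2)]
    set A : Set (ℕ → D) := {u | ε / 4 ≤ |X n u - M n u|} with hA
    have hdep : Dep (max N1 N2) (fun u => |X n u - M n u|) :=
      ((hN1.mono (le_max_left _ _)).comp₂ (hN2.mono (le_max_right _ _)) fun a b => |a - b|)
    have hAm : MeasurableSet A := measurableSet_le measurable_const hdep.measurable
    have hb : ∀ u, ‖Complex.exp (Complex.I * (X n u : ℂ)) -
        Complex.exp (Complex.I * (M n u : ℂ))‖ ≤ ε / 4 + A.indicator (fun _ => (2 : ℝ)) u := by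
      intro u
      by_cases hu : u ∈ A
      · rw [Set.indicator_of_mem hu]
        refine (norm_sub_le _ _).trans ?_
        rw [mul_comm, Complex.norm_exp_ofReal_mul_I, mul_comm, Complex.norm_exp_ofReal_mul_I]
        linarith
      · rw [Set.indicator_of_notMem hu, add_zero]
        refine (norm_exp_sub_le _ _).trans ?_
        simp only [hA, Set.mem_ofPred_eq, not_le] at hu
        exact hu.le
    calc ‖∫ u, (Complex.exp (Complex.I * (X n u : ℂ)) -
          Complex.exp (Complex.I * (M n u : ℂ))) ∂unif D‖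
        ≤ ∫ u, (ε / 4 + A.indicator (fun _ => (2 : ℝ)) u) ∂unif D := by
          refine norm_integral_le_of_norm_le ?_ (Eventually.of_forall hb)
          exact (integrable_const _).add ((integrable_const _).indicator hAm)
      _ = ε / 4 + 2 * (unif D).real A := by
          rw [integral_add (integrable_const _) ((integrable_const _).indicator hAm),
            integral_indicator_const _ hAm]
          simp [mul_comm]
      _ < ε := by
          have := hN n hn
          simp only [← hA] at this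
          linarith
  have := hdiff.add hz
  simpa using this

end general

variable {d : ℕ} [Nonempty (Dir d)]

lemma path_apply (ω : Conf d) (u : ℕ → Dir d) (n : ℕ) (t : ℝ≥0) (a : Fin d) :
    path ω u n t a = (∑ k ∈ Finset.range (fl t n), Phi a (envw ω u k) (u k)) / √(n : ℝ) := by
  change (walk ω u ⌊(n : ℝ≥0) * t⌋₊ a : ℝ) / √(n : ℝ) = _
  rw [walk_eq_sum]
  rfl

lemma path_dep (ω : Conf d) (n : ℕ) (t : ℝ≥0) : Dep (fl t n) (fun u => path ω u n t) :=
  (walk_dep ω (fl t n)).comp fun v => WithLp.toLp 2 fun i => (v i : ℝ) / √(n : ℝ)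

section fixed

variable (Ψ : Fin d → Conf d → Dir d → ℝ) (ω : Conf d) {Dm : Matrix (Fin d) (Fin d) ℝ}
  {lam : ℕ → ℝ} (hT : Typ ω Ψ Dm lam)

include hT

/-- The non-martingale part is negligible at fixed times. -/
lemma negl_time (a : Fin d) (t : ℝ≥0) :
    InP (fun n (u : ℕ → Dir d) => (∑ k ∈ Finset.range (fl t n),
      (Phi a (envw ω u k) (u k) - Ψ a (envw ω u k) (u k))) / √(n : ℝ)) := by
  intro ε hε
  obtain ⟨T, hTt⟩ := exists_nat_ge (t : ℝ)
  have h := hT.negl a (T + 1) (by omega) ε hε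
  refine squeeze_zero' (Eventually.of_forall fun n => measureReal_nonneg) ?_ h
  filter_upwards [eventually_ge_atTop 1] with n hn
  have hn0 : (0 : ℝ) < n := by exact_mod_cast hn
  have hsn : 0 < √(n : ℝ) := Real.sqrt_pos.2 hn0
  refine measureReal_mono fun u hu => ?_
  simp only [Set.mem_ofPred_eq] at hu ⊢
  refine ⟨fl t n, ?_, ?_⟩
  · have h1 := fl_le t n
    have h2 : (fl t n : ℝ) ≤ ((T + 1) * n : ℕ) := by
      push_cast
      nlinarith
    exact_mod_cast h2
  · rw [abs_div, abs_of_pos hsn, le_div_iff₀ hsn] at hu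
    exact hu

lemma fdd_fixed (hG : StmtG) (r : ℕ) (t : Fin r → ℝ≥0) (θ : Fin r → EuclideanSpace ℝ (Fin d)) :
    Tendsto (fun n => ∫ u, Complex.exp (Complex.I *
        ∑ j, (inner ℝ (θ j) (path ω u n (t j)) : ℝ)) ∂unif (Dir d))
      atTop (𝓝 (Complex.exp (-(1 / 2) *
        ∑ j, ∑ k, ((min (t j) (t k) : ℝ≥0) : ℝ) * ∑ a, ∑ b, θ j a * Dm a b * θ k b))) := by
  set t' : Fin r × Fin d → ℝ≥0 := fun p => t p.1 with ht'
  set a' : Fin r × Fin d → Fin d := fun p => p.2 with ha'
  set c' : Fin r × Fin d → ℝ := fun p => θ p.1 p.2 with hc'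
  have h1 := clt_M Ψ ω t' a' c' hG hT
  set M : ℕ → (ℕ → Dir d) → ℝ := fun n u => (∑ p, c' p *
      ∑ k ∈ Finset.range (fl (t' p) n), Ψ (a' p) (envw ω u k) (u k)) / √(n : ℝ) with hM
  set X : ℕ → (ℕ → Dir d) → ℝ := fun n u => (∑ p, c' p *
      ∑ k ∈ Finset.range (fl (t' p) n), Phi (a' p) (envw ω u k) (u k)) / √(n : ℝ) with hX
  have hdepF : ∀ (F : Fin d → Conf d → Dir d → ℝ) (n : ℕ), Dep (NN t' n) (fun u => (∑ p, c' p *
      ∑ k ∈ Finset.range (fl (t' p) n), F (a' p) (envw ω u k) (u k)) / √(n : ℝ)) := by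
    intro F n u u' h
    simp only
    congr 1
    refine Finset.sum_congr rfl fun p _ => ?_
    congr 1
    refine Finset.sum_congr rfl fun k hk => ?_
    rw [Finset.mem_range] at hk
    have h2 := le_NN t' p n
    rw [show envw ω u k = envw ω u' k from envw_dep ω k u u' fun i hi => h i (by omega),
      h k (by omega)]
  have h2 : InP (fun n u => X n u - M n u) := by
    have h3 : InP (fun n (u : ℕ → Dir d) => ∑ p, c' p * ((∑ k ∈ Finset.range (fl (t' p) n),
      (Phi (a' p) (envw ω u k) (u k) - Ψ (a' p) (envw ω u k) (u k))) / √(n : ℝ))) :=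
      InP.sum _ fun p _ => (negl_time Ψ ω hT (a' p) (t' p)).const_mul (c' p)
    refine h3.congr fun n u => ?_
    simp only [hX, hM]
    rw [← sub_div, ← Finset.sum_sub_distrib, Finset.sum_div]
    refine Finset.sum_congr rfl fun p _ => ?_
    rw [← mul_sub, ← Finset.sum_sub_distrib, mul_div_assoc]
  have h3 := char_perturb (fun n => ⟨_, hdepF Phi n⟩) (fun n => ⟨_, hdepF Ψ n⟩) h2 h1
  have h4 : (svar t' a' c' Dm : ℂ) =
      ∑ j, ∑ k, ((min (t j) (t k) : ℝ≥0) : ℝ) * ∑ a, ∑ b, θ j a * Dm a b * θ k b := by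
    norm_cast
    unfold svar
    rw [Fintype.sum_prod_type]
    refine Finset.sum_congr rfl fun j _ => ?_
    simp only [Fintype.sum_prod_type]
    rw [Finset.sum_comm]
    refine Finset.sum_congr rfl fun k _ => ?_
    rw [Finset.mul_sum]
    refine Finset.sum_congr rfl fun a _ => ?_
    rw [Finset.mul_sum]
    refine Finset.sum_congr rfl fun b _ => ?_
    simp only [ht', ha', hc']
    ring
  rw [h4] at h3
  refine h3.congr fun n => ?_
  refine integral_congr_ae (Eventually.of_forall fun u => ?_)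
  simp only
  congr 2
  norm_cast
  rw [Fintype.sum_prod_type, Finset.sum_div]
  refine Finset.sum_congr rfl fun j _ => ?_
  rw [PiLp.inner_apply, Finset.sum_div]
  refine Finset.sum_congr rfl fun a _ => ?_
  rw [path_apply]
  simp only [ht', ha', hc']
  rw [RCLike.inner_apply, conj_trivial]
  ring

end fixed

end Pool.Agent.Helper58.Qip
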