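import Pool.Agent.Helper58.Qip.Unif

set_option autoImplicit false
set_option linter.unusedSectionVars false

/-!
The heat kernel of a labelled graph.
-/

open MeasureTheory ProbabilityTheory Filter Topology
open scoped ENNReal NNReal

namespace Pool.Agent.Helper58.Qip

namespace LGraph

variable {V D : Type} (G : LGraph V D)

/-- Moving along a label is a bijection. -/
def eqv (e : D) : V ≃ V where
  toFun v := G.nxt v e
  invFun v := G.nxt v (G.flip e)
  left_inv v := G.nxt_nxt v e
  right_inv v := by
    have := G.nxt_nxt v (G.flip e)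
    rwa [G.flip_flip] at this

/-- The reversal of labels as a bijection. -/
def flipEquiv : D ≃ D := ⟨G.flip, G.flip, G.flip_flip, G.flip_flip⟩

variable [Fintype D]

lemma tsum_edge (H : V → D → ℝ) (S : Set V) (hS : S.Finite) (h0 : ∀ x, x ∉ S → ∀ e, H x e = 0) :
    ∑' y, ∑ e, H (G.nxt y e) (G.flip e) = ∑' x, ∑ e, H x e := by
  have hsup : ∀ e f : D, (fun x => H x e).support.Finite := fun e _ =>
    hS.subset fun x hx => by
      by_contra hc
      exact hx (h0 x hc e)
  have hsup2 : ∀ e : D, (fun y => H (G.nxt y e) (G.flip e)).support.Finite := fun e => by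
    have : (fun y => H (G.nxt y e) (G.flip e)).support
        = (G.eqv e) ⁻¹' (fun x => H x (G.flip e)).support := by
      ext y; simp [eqv]
    rw [this]
    exact (hsup (G.flip e) e).preimage (G.eqv e).injective.injOn
  rw [Summable.tsum_finsetSum (fun e _ => summable_of_hasFiniteSupport (hsup2 e)),
    Summable.tsum_finsetSum (fun e _ => summable_of_hasFiniteSupport (hsup e e))]
  rw [← Equiv.sum_comp G.flipEquiv]
  refine Finset.sum_congr rfl fun e _ => ?_
  have h1 : G.flip (G.flipEquiv e) = e := G.flip_flip e
  rw [h1]
  exact Equiv.tsum_eq (G.eqv (G.flip e)) (fun x => H x e)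

lemma avg_nonneg {q : V → ℝ} (hq : ∀ v, 0 ≤ q v) (v : V) : 0 ≤ G.avg q v :=
  div_nonneg (Finset.sum_nonneg fun _ _ => hq _) (Nat.cast_nonneg _)

lemma avg_support_finite {q : V → ℝ} (hq : q.support.Finite) : (G.avg q).support.Finite := by
  have hsup2 : ∀ e : D, (fun y => q (G.nxt y e)).support.Finite := fun e => by
    have : (fun y => q (G.nxt y e)).support = (G.eqv e) ⁻¹' q.support := by
      ext y; simp [eqv]
    rw [this]
    exact hq.preimage (G.eqv e).injective.injOn
  refine (Set.finite_iUnion hsup2).subset fun y hy => ?_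
  by_contra hc
  simp only [Set.mem_iUnion, Function.mem_support, not_exists, not_not] at hc
  exact hy (by simp [avg, hc])

lemma tsum_avg_mul {q : V → ℝ} (hq : q.support.Finite) (F : V → ℝ) :
    ∑' y, G.avg q y * F y = ∑' x, q x * mean (fun v e => F (G.nxt v e)) x := by
  have h := G.tsum_edge (fun x e => q x * F (G.nxt x e) / (Fintype.card D : ℝ)) q.support hq
    (fun x hx e => by
      have : q x = 0 := by simpa using hx
      simp [this])
  have h1 : (fun y => G.avg q y * F y) = fun y => ∑ e, (fun x e => q x * F (G.nxt x e) /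
      (Fintype.card D : ℝ)) (G.nxt y e) (G.flip e) := by
    funext y
    simp only [avg, G.nxt_nxt, Finset.sum_div, Finset.sum_mul]
    refine Finset.sum_congr rfl fun e _ => ?_
    ring
  have h2 : (fun x => q x * mean (fun v e => F (G.nxt v e)) x) = fun x => ∑ e,
      (fun x e => q x * F (G.nxt x e) / (Fintype.card D : ℝ)) x e := by
    funext x
    simp only [mean, Finset.mul_sum, Finset.sum_div]
    refine Finset.sum_congr rfl fun e _ => ?_
    ring
  rw [h1, h2, h]

lemma heat_nonneg (o : V) (n : ℕ) (v : V) : 0 ≤ G.heat o n v := by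
  induction n generalizing v with
  | zero => simp only [heat]; split_ifs <;> norm_num
  | succ n ih => exact G.avg_nonneg ih v

lemma heat_support_finite (o : V) (n : ℕ) : (G.heat o n).support.Finite := by
  induction n with
  | zero =>
    refine (Set.finite_singleton o).subset fun v hv => ?_
    by_contra hc
    exact hv (by simp only [heat]; simp at hc; simp [hc])
  | succ n ih => exact G.avg_support_finite ih

lemma walk_dep (o : V) (n : ℕ) : Dep n (fun u => G.walk o u n) := by
  induction n with
  | zero => intro u u' _; rfl
  | succ n ih =>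
    intro u u' hu
    change G.nxt (G.walk o u n) (u n) = G.nxt (G.walk o u' n) (u' n)
    have h1 : G.walk o u n = G.walk o u' n := ih u u' fun i hi => hu i (by omega)
    rw [h1, hu n (by omega)]

variable [Nonempty D] [MeasurableSpace D] [MeasurableSingletonClass D]

lemma integral_walk (o : V) (n : ℕ) (F : V → ℝ) :
    ∫ u, F (G.walk o u n) ∂unif D = ∑' v, G.heat o n v * F v := by
  induction n generalizing F with
  | zero =>
    simp only [walk, integral_const, probReal_univ, smul_eq_mul, one_mul, heat]
    rw [tsum_eq_single o]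
    · simp
    · intro v hv; simp [hv]
  | succ n ih =>
    have h1 : ∫ u, F (G.walk o u (n + 1)) ∂unif D
        = ∫ u, (fun (u : ℕ → D) (e : D) => F (G.nxt (G.walk o u n) e)) u (u n) ∂unif D := rfl
    rw [h1, integral_step (fun e => (G.walk_dep o n).comp fun v => F (G.nxt v e))]
    have h2 := ih (mean (fun v e => F (G.nxt v e)))
    simp only [mean] at h2
    rw [h2]
    exact (G.tsum_avg_mul (G.heat_support_finite o n) F).symm

lemma heat_sum (o : V) (n : ℕ) : ∑' v, G.heat o n v = 1 := by
  have := G.integral_walk o n (fun _ => 1)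
  simpa using this.symm

end LGraph

end Pool.Agent.Helper58.Qip
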