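import Pool.Agent.Helper58.Qip.Decomp

set_option autoImplicit false
set_option linter.unusedSectionVars false

/-!
Maximal inequality and mean bound for antisymmetric additive functionals.
-/

open MeasureTheory ProbabilityTheory Filter Topology
open scoped ENNReal NNReal

namespace Pool.Agent.Helper58.Qip

namespace LGraph

variable {V D : Type} (G : LGraph V D) [Fintype D] [Nonempty D] [MeasurableSpace D]
  [MeasurableSingletonClass D] (o : V) (g : V → D → ℝ)

/-- Markov's inequality. -/
lemma markov_dep {N : ℕ} {F : (ℕ → D) → ℝ} (hF : Dep N F) (h0 : ∀ u, 0 ≤ F u) {c : ℝ}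
    (hc : 0 < c) : (unif D).real {u | c ≤ F u} ≤ (∫ u, F u ∂unif D) / c := by
  have := mul_meas_ge_le_integral_of_nonneg (μ := unif D) (f := F)
    (Eventually.of_forall h0) (hF.integrable _) c
  rw [le_div_iff₀ hc, mul_comm]
  exact this

lemma forward_max (hK : StmtK) (n : ℕ) {lam : ℝ} (hlam : 0 < lam) :
    (unif D).real {u | ∃ j ≤ n, lam ≤ |∑ k ∈ Finset.range j, G.fd o g k u|} ≤
      (∑ k ∈ Finset.range n, G.en o g k) / lam ^ 2 := by
  have h := (hK (ℕ → D) (unif D) (fun j u u' => ∀ i, i < j → u i = u' i) n (G.fd o g)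
    (fun j u u' h i hi => h i (by omega))
    (fun j _ => ⟨(G.fd_dep o g j).measurable, (G.fd_dep o g j).bdd⟩)
    (fun j _ u u' h => G.fd_dep o g j u u' h)
    (fun j _ Y _ _ hY => G.fd_orth o g j Y hY) lam hlam).1
  refine h.trans ?_
  gcongr with k hk
  exact G.integral_fd_sq_le o g k

lemma backward_max (hK : StmtK) (n : ℕ) {lam : ℝ} (hlam : 0 < lam) :
    (unif D).real {u | ∃ j ≤ n, lam ≤ |∑ k ∈ Finset.range j, G.bd o g (n - 1 - k) u|} ≤
      (∑ k ∈ Finset.range n, G.en o g k) / lam ^ 2 := by
  have h := (hK (ℕ → D) (unif D)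
    (fun j u u' => G.walk o u (n - j) = G.walk o u' (n - j) ∧
      ∀ i, n - j ≤ i → i < n → u i = u' i) n (fun j => G.bd o g (n - 1 - j))
    (fun j u u' h => by
      by_cases hj : j < n
      · have e : n - j = n - (j + 1) + 1 := by omega
        refine ⟨?_, fun i h1 h2 => h.2 i (by omega) h2⟩
        rw [e]
        change G.nxt (G.walk o u (n - (j + 1))) (u (n - (j + 1))) =
          G.nxt (G.walk o u' (n - (j + 1))) (u' (n - (j + 1)))
        rw [h.1, h.2 (n - (j + 1)) le_rfl (by omega)]
      · have e : n - j = n - (j + 1) := by omega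
        rw [e]; exact h)
    (fun j _ => ⟨(G.bd_dep o g (n - 1 - j)).measurable, (G.bd_dep o g (n - 1 - j)).bdd⟩)
    (fun j hj u u' h => by
      have e : n - 1 - j = n - (j + 1) := by omega
      have h1 := h.1
      have h2 := h.2 (n - (j + 1)) le_rfl (by omega)
      rw [e]
      simp only [bd]
      have h3 : G.walk o u (n - (j + 1) + 1) = G.walk o u' (n - (j + 1) + 1) := by
        change G.nxt (G.walk o u (n - (j + 1))) (u (n - (j + 1))) =
          G.nxt (G.walk o u' (n - (j + 1))) (u' (n - (j + 1)))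
        rw [h1, h2]
      rw [h1, h2, h3])
    (fun j hj Y _ _ hY => by
      obtain ⟨y, hy⟩ := G.exists_cond o (n - j) n (by omega) Y
        (fun u u' hu => hY u u' ⟨G.walk_dep o _ u u' fun i hi => hu i (by omega),
          fun i _ hi => hu i hi⟩)
        (fun u u' h1 h2 => hY u u' ⟨h1, h2⟩)
      have e : n - 1 - j + 1 = n - j := by omega
      have hd := G.bd_dep o g (n - 1 - j)
      rw [e] at hd
      rw [hy _ hd]
      have := G.bd_orth o g (n - 1 - j) y
      rw [e] at this
      exact this) lam hlam).1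
  refine h.trans ?_
  have h2 : ∑ k ∈ Finset.range n, ∫ u, G.bd o g (n - 1 - k) u ^ 2 ∂unif D
      = ∑ k ∈ Finset.range n, ∫ u, G.bd o g k u ^ 2 ∂unif D :=
    Finset.sum_range_reflect (fun k => ∫ u, G.bd o g k u ^ 2 ∂unif D) n
  rw [h2]
  gcongr with k hk
  exact G.integral_bd_sq_le o g k

/-- The drift term. -/
noncomputable def dterm (k : ℕ) : ℝ :=
  √(2 * (Fintype.card D : ℝ) * (ent (G.heat o (k + 1)) - ent (G.heat o k))) * √(G.en o g (k + 1))

lemma decomp_max (hA : StmtA) (hK : StmtK)
    (hg : ∀ v e, g (G.nxt v e) (G.flip e) = - g v e) (n : ℕ) {lam : ℝ} (hlam : 0 < lam) :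
    (unif D).real {u | ∃ j ≤ n, lam ≤ |∑ k ∈ Finset.range j, g (G.walk o u k) (u k)|} ≤
      27 / lam ^ 2 * ∑ k ∈ Finset.range (n + 1), G.en o g k +
        3 / lam * ∑ k ∈ Finset.range n, G.dterm o g k := by
  set c : ℝ := lam / 3 with hc
  have hc0 : 0 < c := by positivity
  set E1 : Set (ℕ → D) := {u | ∃ j ≤ n, c ≤ |∑ k ∈ Finset.range j, G.fd o g k u|} with hE1
  set E2 : Set (ℕ → D) := {u | ∃ j ≤ n, c ≤ |∑ k ∈ Finset.range j, G.bd o g (n - 1 - k) u|}
    with hE2
  set E3 : ℕ → Set (ℕ → D) := fun j => {u | c ^ 2 ≤ mean g (G.walk o u j) ^ 2} with hE3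
  set E4 : Set (ℕ → D) :=
    {u | c ≤ ∑ k ∈ Finset.range n, |G.drift o g k (G.walk o u (k + 1))|} with hE4
  have hsub : {u | ∃ j ≤ n, lam ≤ |∑ k ∈ Finset.range j, g (G.walk o u k) (u k)|} ⊆
      E1 ∪ E2 ∪ (⋃ j ∈ Finset.range (n + 1), E3 j) ∪ E4 := by
    rintro u ⟨j, hj, hu⟩
    by_contra hcon
    simp only [Set.mem_union, not_or, Set.mem_iUnion, not_exists, hE1, hE2, hE3, hE4,
      Set.mem_ofPred_eq, not_and, not_le, Finset.mem_range] at hcon
    obtain ⟨⟨⟨h1, h2⟩, h3⟩, h4⟩ := hcon
    have hid := G.decomp_id o g j u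
    have hN : ∀ i ≤ n, ∑ k ∈ Finset.range i, G.bd o g k u =
        ∑ k ∈ Finset.range n, G.bd o g (n - 1 - k) u -
          ∑ k ∈ Finset.range (n - i), G.bd o g (n - 1 - k) u := by
      intro i hi
      rw [Finset.sum_range_reflect (fun k => G.bd o g k u) n, eq_sub_iff_add_eq]
      have h5 : ∑ k ∈ Finset.range (n - i), G.bd o g (n - 1 - k) u
          = ∑ k ∈ Finset.Ico i n, G.bd o g k u := by
        rw [Finset.sum_Ico_eq_sum_range, ← Finset.sum_range_reflect]
        refine Finset.sum_congr rfl fun k hk => ?_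
        rw [Finset.mem_range] at hk
        congr 1
        omega
      rw [h5, Finset.sum_range_add_sum_Ico _ hi]
    have a1 := h1 j hj
    have a2 := h2 n le_rfl
    have a3 := h2 (n - j) (by omega)
    have a4 : |mean g o| < c := by
      have := h3 0 (by omega)
      exact abs_lt_of_sq_lt_sq this hc0.le
    have a5 : |mean g (G.walk o u j)| < c := by
      have := h3 j (by omega)
      exact abs_lt_of_sq_lt_sq this hc0.le
    have a6 : |∑ k ∈ Finset.range j, G.drift o g k (G.walk o u (k + 1))| < c := by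
      refine lt_of_le_of_lt (Finset.abs_sum_le_sum_abs _ _) (lt_of_le_of_lt ?_ h4)
      exact Finset.sum_le_sum_of_subset_of_nonneg (Finset.range_mono hj)
        fun _ _ _ => abs_nonneg _
    rw [hN j hj] at hid
    have a7 : 2 * lam ≤ |2 * ∑ k ∈ Finset.range j, g (G.walk o u k) (u k)| := by
      rw [abs_mul, abs_of_pos (by norm_num : (0 : ℝ) < 2)]
      linarith
    rw [hid] at a7
    have b1 := abs_lt.1 a1
    have b2 := abs_lt.1 a2
    have b3 := abs_lt.1 a3
    have b4 := abs_lt.1 a4
    have b5 := abs_lt.1 a5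
    have b6 := abs_lt.1 a6
    have hl : lam = 3 * c := by rw [hc]; ring
    rcases le_abs.1 a7 with h | h <;> linarith [b1.1, b1.2, b2.1, b2.2, b3.1, b3.2, b4.1, b4.2,
      b5.1, b5.2, b6.1, b6.2]
  have hm : (unif D).real {u | ∃ j ≤ n, lam ≤ |∑ k ∈ Finset.range j, g (G.walk o u k) (u k)|} ≤
      (unif D).real E1 + (unif D).real E2 + ∑ j ∈ Finset.range (n + 1), (unif D).real (E3 j)
        + (unif D).real E4 := by
    refine (measureReal_mono hsub).trans ?_
    refine (measureReal_union_le _ _).trans ?_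
    gcongr
    refine (measureReal_union_le _ _).trans ?_
    gcongr
    · exact measureReal_union_le _ _
    · exact measureReal_biUnion_finset_le _ _
  have m1 := G.forward_max o g hK n hc0
  have m2 := G.backward_max o g hK n hc0
  have m3 : ∀ j ∈ Finset.range (n + 1), (unif D).real (E3 j) ≤ G.en o g j / c ^ 2 := by
    intro j _
    have hd : Dep j (fun u => mean g (G.walk o u j) ^ 2) :=
      (G.walk_dep o j).comp fun v => mean g v ^ 2
    refine (markov_dep hd (fun u => sq_nonneg _) (by positivity)).trans ?_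
    gcongr
    refine integral_mono (hd.integrable _) (((G.walk_dep o j).comp (energy g)).integrable _) ?_
    intro u
    exact mean_sq_le g _
  have m4 : (unif D).real E4 ≤ (∑ k ∈ Finset.range n, G.dterm o g k) / c := by
    have hd : ∀ k ∈ Finset.range n,
        Dep n (fun u => |G.drift o g k (G.walk o u (k + 1))|) := by
      intro k hk
      rw [Finset.mem_range] at hk
      exact ((G.walk_dep o (k + 1)).mono (by omega)).comp fun v => |G.drift o g k v|
    refine (markov_dep (Dep.sum _ hd) (fun u => Finset.sum_nonneg fun _ _ => abs_nonneg _)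
      hc0).trans ?_
    gcongr
    rw [integral_finsetSum _ fun k hk => (hd k hk).integrable _]
    exact Finset.sum_le_sum fun k _ => G.integral_drift_le o g hA hg k
  have m3' := Finset.sum_le_sum m3
  rw [← Finset.sum_div] at m3'
  have hss : ∑ k ∈ Finset.range n, G.en o g k ≤ ∑ k ∈ Finset.range (n + 1), G.en o g k :=
    Finset.sum_le_sum_of_subset_of_nonneg (Finset.range_mono (by omega))
      fun k _ _ => G.en_nonneg o g k
  have hc2 : (0 : ℝ) < c ^ 2 := by positivity
  have m12 : (∑ k ∈ Finset.range n, G.en o g k) / c ^ 2 ≤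
      (∑ k ∈ Finset.range (n + 1), G.en o g k) / c ^ 2 := by gcongr
  have e1 : 27 / lam ^ 2 * ∑ k ∈ Finset.range (n + 1), G.en o g k
      = 3 * ((∑ k ∈ Finset.range (n + 1), G.en o g k) / c ^ 2) := by
    rw [hc]; field_simp; ring
  have e2 : 3 / lam * ∑ k ∈ Finset.range n, G.dterm o g k
      = (∑ k ∈ Finset.range n, G.dterm o g k) / c := by
    rw [hc]; field_simp
  rw [e1, e2]
  linarith

lemma decomp_mean (hA : StmtA)
    (hg : ∀ v e, g (G.nxt v e) (G.flip e) = - g v e) (n : ℕ) :
    |∫ u, ∑ k ∈ Finset.range n, g (G.walk o u k) (u k) ∂unif D| ≤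
      (√(G.en o g 0) + √(G.en o g n)) / 2 + (∑ k ∈ Finset.range n, G.dterm o g k) / 2 := by
  have i1 : ∀ k ∈ Finset.range n, Integrable (G.fd o g k) (unif D) :=
    fun k _ => (G.fd_dep o g k).integrable _
  have i2 : ∀ k ∈ Finset.range n, Integrable (G.bd o g k) (unif D) :=
    fun k _ => (G.bd_dep o g k).integrable _
  have i3 : ∀ k, Integrable (fun u => mean g (G.walk o u k)) (unif D) :=
    fun k => ((G.walk_dep o k).comp (mean g)).integrable _
  have i4 : ∀ k ∈ Finset.range n, Integrable (fun u => G.drift o g k (G.walk o u (k + 1)))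
      (unif D) := fun k _ => ((G.walk_dep o (k + 1)).comp (G.drift o g k)).integrable _
  have h1 : 2 * ∫ u, ∑ k ∈ Finset.range n, g (G.walk o u k) (u k) ∂unif D
      = (mean g o - ∫ u, mean g (G.walk o u n) ∂unif D)
        + ∑ k ∈ Finset.range n, ∫ u, G.drift o g k (G.walk o u (k + 1)) ∂unif D := by
    rw [← integral_const_mul]
    have h2 : ∀ u : ℕ → D, 2 * ∑ k ∈ Finset.range n, g (G.walk o u k) (u k) =
      ∑ k ∈ Finset.range n, G.fd o g k u + ∑ k ∈ Finset.range n, G.bd o g k u
      + (mean g o - mean g (G.walk o u n))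
      + ∑ k ∈ Finset.range n, G.drift o g k (G.walk o u (k + 1)) := G.decomp_id o g n
    rw [integral_congr_ae (Eventually.of_forall h2)]
    rw [integral_add, integral_add, integral_add, integral_finsetSum _ i1,
      integral_finsetSum _ i2, integral_finsetSum _ i4, integral_sub (integrable_const _) (i3 n)]
    · have f1 : ∑ k ∈ Finset.range n, ∫ u, G.fd o g k u ∂unif D = 0 :=
        Finset.sum_eq_zero fun k _ => by simpa using G.fd_orth o g k (fun _ => 1) (Dep.const _ _)
      have f2 : ∑ k ∈ Finset.range n, ∫ u, G.bd o g k u ∂unif D = 0 :=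
        Finset.sum_eq_zero fun k _ => by simpa using G.bd_orth o g k (fun _ => 1)
      rw [f1, f2]
      simp
    · exact integrable_finsetSum _ i1
    · exact integrable_finsetSum _ i2
    · exact (integrable_finsetSum _ i1).add (integrable_finsetSum _ i2)
    · exact (integrable_const _).sub (i3 n)
    · exact ((integrable_finsetSum _ i1).add (integrable_finsetSum _ i2)).add
        ((integrable_const _).sub (i3 n))
    · exact integrable_finsetSum _ i4
  have hmean : ∀ k, |∫ u, mean g (G.walk o u k) ∂unif D| ≤ √(G.en o g k) := by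
    intro k
    apply Real.abs_le_sqrt
    have hd : Dep k (fun u => mean g (G.walk o u k)) := (G.walk_dep o k).comp (mean g)
    have hv : (∫ u, mean g (G.walk o u k) ∂unif D) ^ 2 ≤
        ∫ u, mean g (G.walk o u k) ^ 2 ∂unif D := by
      have hmem : MemLp (fun u => mean g (G.walk o u k)) 2 (unif D) := by
        obtain ⟨C, hC⟩ := hd.bdd
        exact MemLp.of_bound hd.measurable.aestronglyMeasurable C
          (Eventually.of_forall fun u => by simpa using hC u)
      have := variance_nonneg (fun u => mean g (G.walk o u k)) (unif D)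
      rw [variance_eq_sub hmem] at this
      simp only [Pi.pow_apply] at this
      linarith
    refine hv.trans ?_
    refine integral_mono ((hd.comp fun a => a ^ 2).integrable _)
      (((G.walk_dep o k).comp (energy g)).integrable _) ?_
    intro u
    exact mean_sq_le g _
  have h0 : |mean g o| ≤ √(G.en o g 0) := by
    have := hmean 0
    simpa [walk] using this
  have h3 : |∑ k ∈ Finset.range n, ∫ u, G.drift o g k (G.walk o u (k + 1)) ∂unif D| ≤
      ∑ k ∈ Finset.range n, G.dterm o g k := by
    refine (Finset.abs_sum_le_sum_abs _ _).trans (Finset.sum_le_sum fun k _ => ?_)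
    exact (abs_integral_le_integral_abs).trans (G.integral_drift_le o g hA hg k)
  have h4 := hmean n
  have h5 : |2 * ∫ u, ∑ k ∈ Finset.range n, g (G.walk o u k) (u k) ∂unif D| ≤
      √(G.en o g 0) + √(G.en o g n) + ∑ k ∈ Finset.range n, G.dterm o g k := by
    rw [h1]
    refine (abs_add_le _ _).trans ?_
    refine add_le_add ((abs_sub _ _).trans (add_le_add h0 h4)) h3
  rw [abs_mul, abs_of_pos (by norm_num : (0 : ℝ) < 2)] at h5
  linarith

end LGraph

end Pool.Agent.Helper58.Qip
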