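import Pool.Agent.Helper58.Qip.Env

set_option autoImplicit false
set_option linter.unusedSectionVars false

/-!
Fields in the closure of the gradients are negligible.
-/

open MeasureTheory ProbabilityTheory Filter Topology
open scoped ENNReal NNReal

namespace Pool.Agent.Helper58.Qip

/-- The field `φ - ∇ g`. -/
noncomputable def subGrad {d : ℕ} (φ : Conf d → Dir d → ℝ) (g : Conf d → ℝ) :
    Conf d → Dir d → ℝ := fun ω e => φ ω e - (g (sig e ω) - g ω)

lemma neglig_fixed (hA : StmtA) (hK : StmtK) (hC2 : StmtC2) {d : ℕ} (ω : Conf d) (hω : Good ω)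
    (h0 : ω 0 = true) [Nonempty (Dir d)] (hE : EntBdd ω hω h0) (φ : Conf d → Dir d → ℝ)
    (hφ : ∀ ε : ℝ, 0 < ε → ∃ g : Conf d → ℝ, (∃ C, ∀ ω, |g ω| ≤ C) ∧
      (∀ v, ω v = true → ∀ e, subGrad φ g (sig e (shift v ω)) (flip e) =
        - subGrad φ g (shift v ω) e) ∧
      ∀ᶠ n : ℕ in atTop, ∑ j ∈ Finset.range n, enC ω (subGrad φ g) j ≤ ε * n)
    (T : ℕ) (hT : 1 ≤ T) (δ : ℝ) (hδ : 0 < δ) :
    Tendsto (fun n : ℕ => (unif (Dir d)).real
      {u | ∃ j ≤ T * n, δ * √(n : ℝ) ≤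
        |∑ k ∈ Finset.range j, φ (shift (walk ω u k) ω) (u k)|}) atTop (𝓝 0) := by
  obtain ⟨hmono, K, hK0, hKi⟩ := hE
  obtain ⟨A, hA0, hC2⟩ := hC2
  have hm : (0 : ℝ) < (Fintype.card (Dir d) : ℝ) := card_pos'
  have hTr : (1 : ℝ) ≤ (T : ℝ) := by exact_mod_cast hT
  set m : ℝ := (Fintype.card (Dir d) : ℝ) with hmdef
  -- choice of epsilon
  have hlim : Tendsto (fun ε : ℝ => 216 * ε * ((T : ℝ) + 1) / δ ^ 2 +
      6 / δ * √(2 * m) * (A * √(K * ε)) * √(T : ℝ)) (𝓝[>] 0) (𝓝 0) := by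
    have : Continuous (fun ε : ℝ => 216 * ε * ((T : ℝ) + 1) / δ ^ 2 +
      6 / δ * √(2 * m) * (A * √(K * ε)) * √(T : ℝ)) := by fun_prop
    have h := this.tendsto 0
    simp only [mul_zero, zero_mul, zero_div, Real.sqrt_zero, add_zero] at h
    exact h.mono_left nhdsWithin_le_nhds
  rw [Metric.tendsto_atTop]
  intro η hη
  have hev : ∀ᶠ ε : ℝ in 𝓝[>] 0, 216 * ε * ((T : ℝ) + 1) / δ ^ 2 +
      6 / δ * √(2 * m) * (A * √(K * ε)) * √(T : ℝ) < η ∧ 0 < ε :=
    (hlim.eventually (gt_mem_nhds hη)).and self_mem_nhdsWithin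
  obtain ⟨ε, hε1, hε0⟩ := hev.exists
  obtain ⟨g, ⟨C, hC⟩, hanti, hen⟩ := hφ ε hε0
  have hC0 : 0 ≤ C := (abs_nonneg _).trans (hC ω)
  set E := subGrad φ g with hEdef
  have hdt := hC2 K ε (entC ω hω h0) (enC ω E) hK0 hε0 hmono (enC_nonneg ω E) hKi hen
  have hTn : Tendsto (fun n : ℕ => T * n) atTop atTop :=
    tendsto_id.const_mul_atTop' (by omega)
  have hTn1 : Tendsto (fun n : ℕ => T * n + 1) atTop atTop :=
    tendsto_atTop_mono (fun n => Nat.le_succ _) hTn
  have e1 : ∀ᶠ n : ℕ in atTop, ∑ j ∈ Finset.range (T * n + 1), enC ω E j ≤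
      ε * ((T * n + 1 : ℕ) : ℝ) := hTn1.eventually hen
  have e2 : ∀ᶠ n : ℕ in atTop, ∑ j ∈ Finset.range (T * n),
      √(entC ω hω h0 (j + 1) - entC ω hω h0 j) * √(enC ω E (j + 1)) ≤
      A * √(K * ε) * √((T * n : ℕ) : ℝ) := hTn.eventually hdt
  have e3 : ∀ᶠ n : ℕ in atTop, 2 * C ≤ δ * √(n : ℝ) / 2 := by
    have : Tendsto (fun n : ℕ => δ * √(n : ℝ) / 2) atTop atTop := by
      refine Tendsto.atTop_div_const (by norm_num) (Tendsto.const_mul_atTop hδ ?_)
      exact Real.tendsto_sqrt_atTop.comp tendsto_natCast_atTop_atTop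
    exact this.eventually_ge_atTop _
  obtain ⟨N, hN⟩ := eventually_atTop.1 (e1.and (e2.and (e3.and (eventually_ge_atTop 1))))
  refine ⟨N, fun n hn => ?_⟩
  obtain ⟨h1, h2, h3, h4⟩ := hN n hn
  rw [Real.dist_eq, sub_zero, abs_of_nonneg measureReal_nonneg]
  refine lt_of_le_of_lt ?_ hε1
  have hn0 : (0 : ℝ) < (n : ℝ) := by exact_mod_cast h4
  have hsn : 0 < √(n : ℝ) := Real.sqrt_pos.2 hn0
  set lam : ℝ := δ * √(n : ℝ) / 2 with hlam
  have hlam0 : 0 < lam := by positivity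
  set G := siteGraph ω hω with hG
  set o : {v : Site d // ω v = true} := ⟨0, h0⟩ with ho
  have hmax := G.decomp_max o (onSite ω E) hA hK
    (fun v e => by
      have := hanti v.1 v.2 e
      rw [sig_shift] at this
      exact this) (T * n) hlam0
  have hsub : {u : ℕ → Dir d | ∃ j ≤ T * n, δ * √(n : ℝ) ≤
        |∑ k ∈ Finset.range j, φ (shift (walk ω u k) ω) (u k)|} ⊆
      {u | ∃ j ≤ T * n, lam ≤
        |∑ k ∈ Finset.range j, onSite ω E (G.walk o u k) (u k)|} := by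
    rintro u ⟨j, hj, hu⟩
    refine ⟨j, hj, ?_⟩
    have hw : ∀ k, (G.walk o u k).1 = walk ω u k := siteGraph_walk ω hω h0 u
    have hs : ∑ k ∈ Finset.range j, onSite ω E (G.walk o u k) (u k)
        = ∑ k ∈ Finset.range j, φ (shift (walk ω u k) ω) (u k)
          - (g (shift (walk ω u j) ω) - g ω) := by
      have : ∀ i : ℕ, ∑ k ∈ Finset.range i, (g (sig (u k) (shift (walk ω u k) ω))
          - g (shift (walk ω u k) ω)) = g (shift (walk ω u i) ω) - g ω := by
        intro i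
        induction i with
        | zero => simp [walk]
        | succ i ih =>
          rw [Finset.sum_range_succ, ih, ← shift_walk_succ]
          ring
      rw [← this j, ← Finset.sum_sub_distrib]
      refine Finset.sum_congr rfl fun k _ => ?_
      simp only [onSite, hw, hEdef, subGrad]
    rw [hs]
    have hg1 := hC (shift (walk ω u j) ω)
    have hg2 := hC ω
    have hg3 : |g (shift (walk ω u j) ω) - g ω| ≤ 2 * C := (abs_sub _ _).trans (by linarith)
    have := abs_sub_abs_le_abs_sub (∑ k ∈ Finset.range j, φ (shift (walk ω u k) ω) (u k))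
      (g (shift (walk ω u j) ω) - g ω)
    rw [hlam]
    linarith
  refine (measureReal_mono hsub).trans (hmax.trans ?_)
  have hen' : ∀ k, G.en o (onSite ω E) k = enC ω E k := en_onSite ω hω h0 E
  simp only [hen']
  have t1 : 27 / lam ^ 2 * ∑ k ∈ Finset.range (T * n + 1), enC ω E k ≤
      216 * ε * ((T : ℝ) + 1) / δ ^ 2 := by
    have hl2 : lam ^ 2 = δ ^ 2 * n / 4 := by
      rw [hlam, div_pow, mul_pow, Real.sq_sqrt hn0.le]; norm_num
    have hb : ε * ((T * n + 1 : ℕ) : ℝ) ≤ ε * (2 * ((T : ℝ) + 1) * n) := by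
      apply mul_le_mul_of_nonneg_left _ hε0.le
      push_cast
      have : (1 : ℝ) ≤ n := by exact_mod_cast h4
      nlinarith
    calc 27 / lam ^ 2 * ∑ k ∈ Finset.range (T * n + 1), enC ω E k
        ≤ 27 / lam ^ 2 * (ε * (2 * ((T : ℝ) + 1) * n)) :=
          mul_le_mul_of_nonneg_left (h1.trans hb) (by positivity)
      _ = 216 * ε * ((T : ℝ) + 1) / δ ^ 2 := by
          rw [hl2, div_mul_eq_mul_div, div_eq_div_iff (by positivity) (by positivity)]
          ring
  have t2 : 3 / lam * ∑ k ∈ Finset.range (T * n), G.dterm o (onSite ω E) k ≤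
      6 / δ * √(2 * m) * (A * √(K * ε)) * √(T : ℝ) := by
    have hd : ∑ k ∈ Finset.range (T * n), G.dterm o (onSite ω E) k =
        √(2 * m) * ∑ j ∈ Finset.range (T * n),
          √(entC ω hω h0 (j + 1) - entC ω hω h0 j) * √(enC ω E (j + 1)) := by
      rw [Finset.mul_sum]
      refine Finset.sum_congr rfl fun j _ => ?_
      unfold LGraph.dterm
      rw [hen', ← mul_assoc]
      congr 1
      exact Real.sqrt_mul (by positivity) _
    rw [hd]
    calc 3 / lam * (√(2 * m) * ∑ j ∈ Finset.range (T * n),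
          √(entC ω hω h0 (j + 1) - entC ω hω h0 j) * √(enC ω E (j + 1)))
        ≤ 3 / lam * (√(2 * m) * (A * √(K * ε) * √((T * n : ℕ) : ℝ))) := by
          gcongr
      _ = 6 / δ * √(2 * m) * (A * √(K * ε)) * √(T : ℝ) := by
          rw [hlam]
          push_cast
          rw [Real.sqrt_mul (by positivity : (0 : ℝ) ≤ (T : ℝ)) (n : ℝ)]
          field_simp
          ring
  exact add_le_add t1 t2

end Pool.Agent.Helper58.Qip
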