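import Pool.Agent.Helper58.Qip.Negl

set_option autoImplicit false
set_option linter.unusedSectionVars false

/-!
Convergence to zero in probability.
-/

open MeasureTheory ProbabilityTheory Filter Topology
open scoped ENNReal NNReal

namespace Pool.Agent.Helper58.Qip

variable {D : Type} [Fintype D] [Nonempty D] [MeasurableSpace D] [MeasurableSingletonClass D]

/-- Convergence to zero in probability. -/
def InP (X : ℕ → (ℕ → D) → ℝ) : Prop :=
  ∀ ε : ℝ, 0 < ε → Tendsto (fun n => (unif D).real {u | ε ≤ |X n u|}) atTop (𝓝 0)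

lemma InP.of_le {X Y : ℕ → (ℕ → D) → ℝ} (hY : InP Y)
    (h : ∀ᶠ n in atTop, ∀ u, |X n u| ≤ |Y n u|) : InP X := by
  intro ε hε
  refine squeeze_zero' (Eventually.of_forall fun n => measureReal_nonneg) ?_ (hY ε hε)
  filter_upwards [h] with n hn
  exact measureReal_mono fun u hu => le_trans hu (hn u)

lemma InP.congr {X Y : ℕ → (ℕ → D) → ℝ} (hY : InP Y) (h : ∀ n u, X n u = Y n u) : InP X :=
  hY.of_le (Eventually.of_forall fun n u => by rw [h])

lemma InP.add {X Y : ℕ → (ℕ → D) → ℝ} (hX : InP X) (hY : InP Y) :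
    InP (fun n u => X n u + Y n u) := by
  intro ε hε
  have h := (hX (ε / 2) (by linarith)).add (hY (ε / 2) (by linarith))
  rw [add_zero] at h
  refine squeeze_zero (fun n => measureReal_nonneg) (fun n => ?_) h
  refine le_trans (measureReal_mono ?_) (measureReal_union_le _ _)
  intro u hu
  by_contra hc
  simp only [Set.mem_union, Set.mem_ofPred_eq, not_or, not_le] at hc hu
  have := abs_add_le (X n u) (Y n u)
  linarith [hc.1, hc.2]

lemma InP.neg {X : ℕ → (ℕ → D) → ℝ} (hX : InP X) : InP (fun n u => - X n u) :=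
  hX.of_le (Eventually.of_forall fun n u => by rw [abs_neg])

lemma InP.sub {X Y : ℕ → (ℕ → D) → ℝ} (hX : InP X) (hY : InP Y) :
    InP (fun n u => X n u - Y n u) :=
  (hX.add hY.neg).congr fun n u => by ring

lemma InP.of_tendsto {x : ℕ → ℝ} (hx : Tendsto x atTop (𝓝 0)) :
    InP (D := D) (fun n _ => x n) := by
  intro ε hε
  have h : ∀ᶠ n in atTop, |x n| < ε := by
    have := hx.abs
    rw [abs_zero] at this
    exact this.eventually (gt_mem_nhds hε)
  refine tendsto_const_nhds.congr' ?_
  filter_upwards [h] with n hn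
  have : {u : ℕ → D | ε ≤ |x n|} = ∅ := by
    ext u
    simp only [Set.mem_ofPred_eq, Set.mem_empty_iff_false, iff_false, not_le]
    exact hn
  rw [this]
  simp

lemma InP.bdd_mul {X : ℕ → (ℕ → D) → ℝ} (hX : InP X) {c : ℕ → ℝ} {C : ℝ}
    (hc : ∀ᶠ n in atTop, |c n| ≤ C) : InP (fun n u => c n * X n u) := by
  intro ε hε
  have hC : 0 < |C| + 1 := by positivity
  refine squeeze_zero' (Eventually.of_forall fun n => measureReal_nonneg) ?_
    (hX (ε / (|C| + 1)) (by positivity))
  filter_upwards [hc] with n hn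
  refine measureReal_mono fun u hu => ?_
  simp only [Set.mem_ofPred_eq] at hu ⊢
  rw [div_le_iff₀ hC]
  rw [abs_mul] at hu
  have h1 : |c n| ≤ |C| + 1 := by linarith [le_abs_self C]
  nlinarith [abs_nonneg (X n u), abs_nonneg (c n)]

lemma InP.const_mul {X : ℕ → (ℕ → D) → ℝ} (hX : InP X) (c : ℝ) :
    InP (fun n u => c * X n u) :=
  hX.bdd_mul (c := fun _ => c) (C := |c|) (Eventually.of_forall fun _ => le_rfl)

lemma InP.zero : InP (D := D) (fun _ _ => 0) := InP.of_tendsto tendsto_const_nhds

lemma InP.sum {ι : Type*} (s : Finset ι) {X : ι → ℕ → (ℕ → D) → ℝ}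
    (hX : ∀ i ∈ s, InP (X i)) : InP (fun n u => ∑ i ∈ s, X i n u) := by
  classical
  induction s using Finset.induction_on with
  | empty => simpa using InP.zero
  | insert a s ha ih =>
    have h := (hX a (Finset.mem_insert_self a s)).add
      (ih fun i hi => hX i (Finset.mem_insert_of_mem hi))
    refine h.congr fun n u => ?_
    rw [Finset.sum_insert ha]

/-- Convergence in mean implies convergence in probability. -/
lemma InP.of_mean {X : ℕ → (ℕ → D) → ℝ} (hd : ∀ n, ∃ N, Dep N (X n))
    (h : Tendsto (fun n => ∫ u, |X n u| ∂unif D) atTop (𝓝 0)) : InP X := by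
  intro ε hε
  have h2 := h.div_const ε
  rw [zero_div] at h2
  refine squeeze_zero (fun n => measureReal_nonneg) (fun n => ?_) h2
  obtain ⟨N, hN⟩ := hd n
  exact LGraph.markov_dep (hN.comp fun a => |a|) (fun u => abs_nonneg _) hε

end Pool.Agent.Helper58.Qip
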