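import Pool.Agent.Helper58.Qip.Base

set_option autoImplicit false

/-!
Statements of the packets.
-/

open MeasureTheory ProbabilityTheory Filter Topology
open scoped ENNReal NNReal

namespace Pool.Agent.Helper58.Qip

/-- Packet A: entropy production controls the drift of the reversed walk. -/
def StmtA : Prop :=
  ∀ (V D : Type) [Fintype D] [Nonempty D] (G : LGraph V D) (q : V → ℝ),
    (∀ v, 0 ≤ q v) → q.support.Finite → ∀ g : V → D → ℝ,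
    LGraph.ent q ≤ LGraph.ent (G.avg q) ∧
    ∑' y, |mean (fun v e => g v e * (q (G.nxt v e) - G.avg q v)) y| ≤
      √(2 * (Fintype.card D : ℝ) * (LGraph.ent (G.avg q) - LGraph.ent q)) *
        √(∑' y, G.avg q y * energy g y)

/-- Packet K: maximal inequalities for sums of history-orthogonal functions. `h j` is the
equivalence relation of having the same history up to time `j`. -/
def StmtK : Prop :=
  ∀ (S : Type) [MeasurableSpace S] (μ : Measure S) [IsProbabilityMeasure μ]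
    (h : ℕ → S → S → Prop) (n : ℕ) (ζ : ℕ → S → ℝ),
    (∀ j s s', h (j + 1) s s' → h j s s') →
    (∀ j, j < n → Measurable (ζ j) ∧ ∃ C, ∀ s, |ζ j s| ≤ C) →
    (∀ j, j < n → ∀ s s', h (j + 1) s s' → ζ j s = ζ j s') →
    (∀ j, j < n → ∀ Y : S → ℝ, Measurable Y → (∃ C, ∀ s, |Y s| ≤ C) →
      (∀ s s', h j s s' → Y s = Y s') → ∫ s, ζ j s * Y s ∂μ = 0) →
    ∀ lam : ℝ, 0 < lam →
      μ.real {s | ∃ j ≤ n, lam ≤ |∑ i ∈ Finset.range j, ζ i s|} ≤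
        (∑ i ∈ Finset.range n, ∫ s, ζ i s ^ 2 ∂μ) / lam ^ 2 ∧
      μ.real {s | ∃ j ≤ n, 2 * lam ≤ |∑ i ∈ Finset.range j, ζ i s|} ≤
        √(∑ i ∈ Finset.range n, ∫ s, ζ i s ^ 2 ∂μ) / lam *
          √(μ.real {s | lam ≤ |∑ i ∈ Finset.range n, ζ i s|})

/-- Packet B: lower bound for the entropy of the walk (heat kernel upper bound). -/
def StmtB : Prop :=
  ∀ d : ℕ, 2 ≤ d → ∃ C : ℝ, ∀ (ω : Conf d) (hω : Good ω) (o : {v : Site d // ω v = true})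
    (n : ℕ), 1 ≤ n → (d : ℝ) / 2 * Real.log n - C ≤ LGraph.ent ((siteGraph ω hω).heat o n)

/-- Packet U: upper bound for the entropy by the first moment. -/
def StmtU : Prop :=
  ∀ d : ℕ, 1 ≤ d → ∃ C : ℝ, ∀ (V : Type) (ι : V → Site d), Function.Injective ι →
    ∀ q : V → ℝ, (∀ v, 0 ≤ q v) → q.support.Finite → ∑' v, q v = 1 →
    LGraph.ent q ≤ C + d * Real.log (1 + ∑' v, q v * ∑ i, |(ι v i : ℝ)|)

/-- Packet C, first part: closing the argument. -/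
def StmtC1 : Prop :=
  ∀ (d c C0 C1 C2 C3 : ℝ) (H a e : ℕ → ℝ), 0 < d → 0 ≤ c →
    Monotone H → (∀ k, 0 ≤ a k) → (∀ k, 0 ≤ e k) →
    (∀ k : ℕ, 1 ≤ k → d / 2 * Real.log k - C0 ≤ H k) →
    (∀ k, H k ≤ C1 + d * Real.log (1 + a k)) →
    (∀ k : ℕ, a k ≤ C2 * √((k : ℝ) + 1) +
      c * ∑ j ∈ Finset.range k, √(H (j + 1) - H j) * √(e (j + 1))) →
    (∀ k : ℕ, ∑ j ∈ Finset.range (k + 1), e j ≤ C3 * ((k : ℝ) + 1)) →
    ∃ K : ℝ, ∀ i : ℕ, H (2 ^ (i + 1)) - H (2 ^ i) ≤ K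

/-- Packet C, second part: small energies have small reversed drift. -/
def StmtC2 : Prop :=
  ∃ A : ℝ, 0 < A ∧ ∀ (K ε : ℝ) (H e : ℕ → ℝ), 0 < K → 0 < ε →
    Monotone H → (∀ k, 0 ≤ e k) →
    (∀ i : ℕ, H (2 ^ (i + 1)) - H (2 ^ i) ≤ K) →
    (∀ᶠ n : ℕ in atTop, ∑ j ∈ Finset.range n, e j ≤ ε * n) →
    ∀ᶠ n : ℕ in atTop, ∑ j ∈ Finset.range n, √(H (j + 1) - H j) * √(e (j + 1)) ≤
      A * √(K * ε) * √(n : ℝ)

/-- The assumptions (A1) and (A2). -/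
structure Env (d : ℕ) (Q : Measure (Conf d)) : Prop where
  prob : IsProbabilityMeasure Q
  erg : ∀ i : Fin d, Ergodic (shift (Pi.single i 1)) Q
  nonempty : Q {ω | ∀ x, ω x = false} < 1

/-- Packet D1: the Palm measure. -/
def StmtD1 : Prop :=
  ∀ (d : ℕ) (Q : Measure (Conf d)), 1 ≤ d → Env d Q →
    IsProbabilityMeasure (palm Q) ∧
    (∀ᵐ ω ∂palm Q, ω 0 = true ∧ Good ω) ∧
    (∀ e : Dir d, MeasurePreserving (sig e) (palm Q) (palm Q))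

/-- Packet D2: null sets are not met anywhere. -/
def StmtD2 : Prop :=
  ∀ (d : ℕ) (Q : Measure (Conf d)), 1 ≤ d → Env d Q →
    ∀ p : Conf d → Prop, (∀ᵐ ω ∂palm Q, p ω) →
      ∀ᵐ ω ∂palm Q, ∀ v, ω v = true → p (shift v ω)

/-- Packet D3: ergodicity. -/
def StmtD3 : Prop :=
  ∀ (d : ℕ) (Q : Measure (Conf d)), 1 ≤ d → Env d Q →
    ∀ h : Conf d → ℝ, Measurable h → (∀ e, h ∘ sig e =ᵐ[palm Q] h) →
      ∃ c, h =ᵐ[palm Q] fun _ => c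

/-- Packet E: the pointwise ergodic theorem for the environment chain. -/
def StmtE : Prop :=
  ∀ (Ω D : Type) [MeasurableSpace Ω] [Fintype D] [Nonempty D] (P : Measure Ω)
    [IsProbabilityMeasure P] (S : RevSys Ω D P), S.Erg →
    ∀ f : Ω → ℝ, Measurable f → Integrable f P →
      ∀ᵐ ω ∂P, Tendsto (fun n : ℕ => (∑ k ∈ Finset.range n, S.Rit f k ω) / (n : ℝ)) atTop
        (𝓝 (∫ x, f x ∂P))

/-- Packet F: projection onto the orthogonal complement of the gradients. -/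
def StmtF : Prop :=
  ∀ (Ω D : Type) [MeasurableSpace Ω] [Fintype D] [Nonempty D] (P : Measure Ω)
    [IsProbabilityMeasure P] (S : RevSys Ω D P) (Φ : Ω → D → ℝ),
    (∀ e, Measurable fun ω => Φ ω e) → (∀ e, Integrable (fun ω => Φ ω e ^ 2) P) →
    (∀ᵐ ω ∂P, ∀ e, Φ (S.σ e ω) (S.flip e) = - Φ ω e) →
    ∃ Ψ : Ω → D → ℝ, (∀ e, Measurable fun ω => Ψ ω e) ∧
      (∀ e, Integrable (fun ω => Ψ ω e ^ 2) P) ∧
      (∀ᵐ ω ∂P, ∀ e, Ψ (S.σ e ω) (S.flip e) = - Ψ ω e) ∧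
      (∀ᵐ ω ∂P, ∑ e, Ψ ω e = 0) ∧
      ∀ ε : ℝ, 0 < ε → ∃ g : Ω → ℝ, Measurable g ∧ (∃ C, ∀ ω, |g ω| ≤ C) ∧
        ∫ ω, energy (fun ω e => Φ ω e - Ψ ω e - (g (S.σ e ω) - g ω)) ω ∂P ≤ ε

/-- Packet G: a martingale central limit theorem. -/
def StmtG : Prop :=
  ∀ (D : Type) [Fintype D] [Nonempty D] [MeasurableSpace D] [MeasurableSingletonClass D]
    (N : ℕ → ℕ) (ξ : ℕ → ℕ → (ℕ → D) → D → ℝ) (s : ℝ), 0 ≤ s →
    (∀ n k u u', (∀ i, i < k → u i = u' i) → ξ n k u = ξ n k u') →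
    (∀ n k u, ∑ e, ξ n k u e = 0) →
    (∀ ε : ℝ, 0 < ε → Tendsto (fun n => (unif D).real
      {u | ε ≤ |∑ k ∈ Finset.range (N n), (∑ e, ξ n k u e ^ 2) / (Fintype.card D : ℝ) - s|})
      atTop (𝓝 0)) →
    (∀ ε δ : ℝ, 0 < ε → 0 < δ → Tendsto (fun n => (unif D).real
      {u | δ ≤ ∑ k ∈ Finset.range (N n),
        (∑ e, if ε ≤ |ξ n k u e| then ξ n k u e ^ 2 else 0) / (Fintype.card D : ℝ)})
      atTop (𝓝 0)) →
    Tendsto (fun n => ∫ u, Complex.exp (Complex.I *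
      (∑ k ∈ Finset.range (N n), ξ n k u (u k) : ℝ)) ∂unif D)
      atTop (𝓝 (Complex.exp (-(1 / 2) * (s : ℂ))))

/-- Packet I: the convergence of functionals follows from the other two properties. -/
def StmtI : Prop :=
  ∀ (d : ℕ) (D : Matrix (Fin d) (Fin d) ℝ), D.PosSemidef →
    ∀ (S : Type) [MeasurableSpace S] (μ : Measure S) [IsProbabilityMeasure μ]
      (Y : ℕ → S → ℝ≥0 → EuclideanSpace ℝ (Fin d)),
    (∀ n t, Measurable fun u => Y n u t) → (∀ n u, Y n u 0 = 0) →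
    (∀ n u, ∃ a : ℝ≥0, 0 < a ∧ ∃ y : ℕ → EuclideanSpace ℝ (Fin d), ∀ t, Y n u t = y ⌊a * t⌋₊) →
    (∀ (n : ℕ) (F : (ℝ≥0 → EuclideanSpace ℝ (Fin d)) → ℝ), (∃ C, ∀ x, |F x| ≤ C) →
      J1Continuous F → AEStronglyMeasurable (fun u => F (Y n u)) μ) →
    (∀ (r : ℕ) (t : Fin r → ℝ≥0) (θ : Fin r → EuclideanSpace ℝ (Fin d)),
      Tendsto (fun n => ∫ u, Complex.exp (Complex.I * ∑ j, (inner ℝ (θ j) (Y n u (t j)) : ℝ)) ∂μ)
        atTop (𝓝 (Complex.exp (-(1 / 2) *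
          ∑ j, ∑ k, ((min (t j) (t k) : ℝ≥0) : ℝ) * ∑ a, ∑ b, θ j a * D a b * θ k b)))) →
    (∀ (T : ℝ≥0) (ε η : ℝ), 0 < ε → 0 < η → ∃ δ : ℝ, 0 < δ ∧ ∀ᶠ n in atTop,
      μ {u | ∃ s t : ℝ≥0, s ≤ T ∧ t ≤ T ∧ dist s t ≤ δ ∧ ε < dist (Y n u s) (Y n u t)}
        ≤ ENNReal.ofReal η) →
    ConvBM D Y μ

end Pool.Agent.Helper58.Qip
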