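import Pool.Agent.Helper58.Qip.Maxi

set_option autoImplicit false

/-!
Further packet statements.
-/

open MeasureTheory ProbabilityTheory Filter Topology
open scoped ENNReal NNReal

namespace Pool.Agent.Helper58.Qip

/-- Packet E0: coboundaries of bounded functions and constants are dense in `L1`. -/
def StmtE0 : Prop :=
  ∀ (Ω D : Type) [MeasurableSpace Ω] [Fintype D] [Nonempty D] (P : Measure Ω)
    [IsProbabilityMeasure P] (S : RevSys Ω D P), S.Erg →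
    ∀ f : Ω → ℝ, Measurable f → Integrable f P → ∀ ε : ℝ, 0 < ε →
      ∃ g : Ω → ℝ, Measurable g ∧ (∃ C, ∀ ω, |g ω| ≤ C) ∧
        ∫ ω, |f ω - ∫ x, f x ∂P - (g ω - S.R g ω)| ∂P ≤ ε

/-- Packet E2: the ergodic theorem along the chain started from a fixed environment. -/
def StmtE2 : Prop :=
  ∀ (Ω D : Type) [MeasurableSpace Ω] [Fintype D] [Nonempty D] [MeasurableSpace D]
    [MeasurableSingletonClass D] (P : Measure Ω) [IsProbabilityMeasure P] (S : RevSys Ω D P),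
    S.Erg → ∀ f : Ω → ℝ, Measurable f → Integrable f P →
      ∀ᵐ ω ∂P, ∀ ε : ℝ, 0 < ε → Tendsto (fun n : ℕ => (unif D).real
        {u | ε ≤ |(∑ k ∈ Finset.range n, f (S.env ω u k)) / (n : ℝ) - ∫ x, f x ∂P|})
        atTop (𝓝 0)

/-- Packet T: tightness of a martingale from the central limit theorem. -/
def StmtT : Prop :=
  ∀ (D : Type) [Fintype D] [Nonempty D] [MeasurableSpace D] [MeasurableSingletonClass D]
    (ψ : ℕ → (ℕ → D) → D → ℝ) (s : ℝ), 0 ≤ s →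
    (∀ k u u', (∀ i, i < k → u i = u' i) → ψ k u = ψ k u') →
    (∀ k u, ∑ e, ψ k u e = 0) →
    (∀ a b : ℝ≥0, a ≤ b → Tendsto (fun n : ℕ =>
      (∑ k ∈ Finset.Ico ⌊(n : ℝ≥0) * a⌋₊ ⌊(n : ℝ≥0) * b⌋₊,
        ∫ u, (∑ e, ψ k u e ^ 2) / (Fintype.card D : ℝ) ∂unif D) / (n : ℝ)) atTop
      (𝓝 (((b : ℝ) - a) * s))) →
    (∀ a b : ℝ≥0, a ≤ b → ∀ θ : ℝ, Tendsto (fun n : ℕ => ∫ u, Complex.exp (Complex.I *
      ((θ * (∑ k ∈ Finset.Ico ⌊(n : ℝ≥0) * a⌋₊ ⌊(n : ℝ≥0) * b⌋₊, ψ k u (u k)) / √(n : ℝ) : ℝ)))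
        ∂unif D) atTop
      (𝓝 (Complex.exp (-(1 / 2) * ((θ ^ 2 * ((b : ℝ) - a) * s : ℝ) : ℂ))))) →
    ∀ T ε η : ℝ, 0 < T → 0 < ε → 0 < η → ∃ δ : ℝ, 0 < δ ∧ ∀ᶠ n : ℕ in atTop,
      (unif D).real {u | ∃ j j' : ℕ, (j : ℝ) ≤ T * n ∧ (j' : ℝ) ≤ T * n ∧
        |(j : ℝ) - j'| ≤ δ * n ∧
        ε * √(n : ℝ) < |∑ k ∈ Finset.range j, ψ k u (u k) - ∑ k ∈ Finset.range j', ψ k u (u k)|}
        ≤ η

/-- Packet M: measurability of functionals of the path. -/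
def StmtM : Prop :=
  ∀ (d : ℕ) (ω : Conf d) (n : ℕ) (F : (ℝ≥0 → EuclideanSpace ℝ (Fin d)) → ℝ),
    (∃ C, ∀ x, |F x| ≤ C) → J1Continuous F → Measurable fun u : ℕ → Dir d => F (path ω u n)

end Pool.Agent.Helper58.Qip
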