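import Pool.Agent.Helper58.Qip.Fixed

set_option autoImplicit false
set_option linter.unusedSectionVars false

/-!
Tightness in a typical environment, and the convergence to Brownian motion.
-/

open MeasureTheory ProbabilityTheory Filter Topology
open scoped ENNReal NNReal

namespace Pool.Agent.Helper58.Qip

variable {d : ℕ} [Nonempty (Dir d)]

lemma dist_le_sum (x y : EuclideanSpace ℝ (Fin d)) : dist x y ≤ ∑ a, |x a - y a| := by
  rw [EuclideanSpace.dist_eq]
  apply Real.sqrt_le_iff.2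
  refine ⟨Finset.sum_nonneg fun _ _ => abs_nonneg _, ?_⟩
  simp only [Real.dist_eq]
  exact Finset.sum_sq_le_sq_sum_of_nonneg fun _ _ => abs_nonneg _

lemma abs_fl_sub_le (s t : ℝ≥0) (n : ℕ) : |(fl s n : ℝ) - fl t n| ≤ n * dist s t + 1 := by
  have h1 := fl_le s n
  have h2 := fl_le t n
  have h3 := lt_fl s n
  have h4 := lt_fl t n
  have h5 : dist s t = |(s : ℝ) - t| := NNReal.dist_eq s t
  have hn : (0 : ℝ) ≤ n := Nat.cast_nonneg n
  have h6 : (n : ℝ) * ((s : ℝ) - t) ≤ n * dist s t := by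
    rw [h5]; exact mul_le_mul_of_nonneg_left (le_abs_self _) hn
  have h7 : (n : ℝ) * ((t : ℝ) - s) ≤ n * dist s t := by
    rw [h5, abs_sub_comm]; exact mul_le_mul_of_nonneg_left (le_abs_self _) hn
  rw [abs_le]
  constructor <;> nlinarith

section fixed

variable (Ψ : Fin d → Conf d → Dir d → ℝ) (ω : Conf d) {Dm : Matrix (Fin d) (Fin d) ℝ}
  {lam : ℕ → ℝ} (hT : Typ ω Ψ Dm lam)

include hT

lemma psi_T (hStT : StmtT) (hG : StmtG) (a : Fin d) :
    ∀ T ε η : ℝ, 0 < T → 0 < ε → 0 < η → ∃ δ : ℝ, 0 < δ ∧ ∀ᶠ n : ℕ in atTop,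
      (unif (Dir d)).real {u | ∃ j j' : ℕ, (j : ℝ) ≤ T * n ∧ (j' : ℝ) ≤ T * n ∧
        |(j : ℝ) - j'| ≤ δ * n ∧
        ε * √(n : ℝ) < |∑ k ∈ Finset.range j, Ψ a (envw ω u k) (u k) -
          ∑ k ∈ Finset.range j', Ψ a (envw ω u k) (u k)|} ≤ η := by
  refine hStT (Dir d) (fun k u e => Ψ a (envw ω u k) e) (Dm a a) ?_ ?_ ?_ ?_ ?_
  · refine ge_of_tendsto' (hT.var a) fun n => ?_
    exact div_nonneg (Finset.sum_nonneg fun k _ => integral_nonneg fun u => energy_nonneg _ _)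
      (Nat.cast_nonneg _)
  · intro k u u' h
    funext e
    rw [show envw ω u k = envw ω u' k from envw_dep ω k u u' h]
  · intro k u
    exact hT.div _ (walk_occ hT.occ hT.good u k) a
  · intro s t hst
    have h1 := (tendsto_time (hT.var a) t).sub (tendsto_time (hT.var a) s)
    rw [← sub_mul] at h1
    refine h1.congr fun n => ?_
    change _ = (∑ k ∈ Finset.Ico (fl s n) (fl t n), ∫ u, energy (Ψ a) (envw ω u k)
      ∂unif (Dir d)) / (n : ℝ)
    rw [Finset.sum_Ico_eq_sub _ (fl_mono hst n), sub_div]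
  · intro s t hst θ
    have h1 := clt_M Ψ ω (ι := Fin 2) ![t, s] (fun _ => a) ![θ, -θ] hG hT
    have h2 : svar ![t, s] (fun _ : Fin 2 => a) ![θ, -θ] Dm =
        θ ^ 2 * ((t : ℝ) - s) * Dm a a := by
      unfold svar
      simp only [Fin.sum_univ_two, Matrix.cons_val_zero, Matrix.cons_val_one, min_self,
        min_eq_left hst, min_eq_right hst]
      ring
    rw [h2] at h1
    refine h1.congr fun n => ?_
    refine integral_congr_ae (Eventually.of_forall fun u => ?_)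
    simp only [Fin.sum_univ_two, Matrix.cons_val_zero, Matrix.cons_val_one]
    congr 3
    change _ = (θ * ∑ k ∈ Finset.Ico (fl s n) (fl t n), Ψ a (envw ω u k) (u k)) / √(n : ℝ)
    rw [Finset.sum_Ico_eq_sub _ (fl_mono hst n)]
    ring

lemma tight_fixed (hStT : StmtT) (hG : StmtG) (T : ℝ≥0) (ε η : ℝ) (hε : 0 < ε) (hη : 0 < η) :
    ∃ δ : ℝ, 0 < δ ∧ ∀ᶠ n in atTop,
      unif (Dir d) {u | ∃ s t : ℝ≥0, s ≤ T ∧ t ≤ T ∧ dist s t ≤ δ ∧
        ε < dist (path ω u n s) (path ω u n t)} ≤ ENNReal.ofReal η := by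
  have hd : (0 : ℝ) < d := by
    obtain ⟨e⟩ := ‹Nonempty (Dir d)›
    have := e.1.pos
    exact_mod_cast (by omega : 0 < d)
  obtain ⟨T1, hT1⟩ := exists_nat_ge ((T : ℝ) + 1)
  have hT1' : 1 ≤ T1 := by
    have : (0 : ℝ) ≤ (T : ℝ) := T.2
    have h2 : ((1 : ℕ) : ℝ) ≤ (T1 : ℝ) := by push_cast; linarith
    exact_mod_cast h2
  have hT1r : (0 : ℝ) < T1 := by exact_mod_cast hT1'
  choose δ hδ0 hδ using fun a => psi_T Ψ ω hT hStT hG a (T1 : ℝ) (ε / (2 * d)) (η / (2 * d))
    hT1r (by positivity) (by positivity)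
  have hneg := fun a => hT.negl a T1 hT1' (ε / (4 * d)) (by positivity)
  obtain ⟨δ0, hδ1, hδ2⟩ : ∃ δ0 : ℝ, (∀ a, δ0 < δ a / 2) ∧ 0 < δ0 := by
    have h1 : ∀ᶠ x : ℝ in 𝓝[>] 0, ∀ a, x < δ a / 2 := by
      rw [eventually_all]
      intro a
      exact (gt_mem_nhds (by have := hδ0 a; positivity)).filter_mono nhdsWithin_le_nhds
    exact (h1.and self_mem_nhdsWithin).exists
  refine ⟨δ0, hδ2, ?_⟩
  have hev1 : ∀ᶠ n : ℕ in atTop, ∀ a, (unif (Dir d)).real
      {u | ∃ j j' : ℕ, (j : ℝ) ≤ T1 * n ∧ (j' : ℝ) ≤ T1 * n ∧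
        |(j : ℝ) - j'| ≤ δ a * n ∧
        ε / (2 * d) * √(n : ℝ) < |∑ k ∈ Finset.range j, Ψ a (envw ω u k) (u k) -
          ∑ k ∈ Finset.range j', Ψ a (envw ω u k) (u k)|} ≤ η / (2 * d) :=
    eventually_all.2 hδ
  have hev2 : ∀ᶠ n : ℕ in atTop, ∀ a, (unif (Dir d)).real
      {u | ∃ j ≤ T1 * n, ε / (4 * d) * √(n : ℝ) ≤
        |∑ k ∈ Finset.range j, (Phi a (envw ω u k) (u k) - Ψ a (envw ω u k) (u k))|}
        < η / (2 * d) :=
    eventually_all.2 fun a => (hneg a).eventually (gt_mem_nhds (by positivity))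
  have hev3 : ∀ᶠ n : ℕ in atTop, ∀ a, 1 ≤ δ a / 2 * n := by
    rw [eventually_all]
    intro a
    have h1 : Tendsto (fun n : ℕ => δ a / 2 * (n : ℝ)) atTop atTop :=
      Tendsto.const_mul_atTop (by have := hδ0 a; positivity) tendsto_natCast_atTop_atTop
    exact h1.eventually_ge_atTop 1
  filter_upwards [hev1, hev2, hev3, eventually_ge_atTop 1] with n h1 h2 h3 h4
  have hn0 : (0 : ℝ) < n := by exact_mod_cast h4
  have hsn : 0 < √(n : ℝ) := Real.sqrt_pos.2 hn0
  set A : Fin d → Set (ℕ → Dir d) := fun a => {u | ∃ j j' : ℕ, (j : ℝ) ≤ T1 * n ∧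
        (j' : ℝ) ≤ T1 * n ∧ |(j : ℝ) - j'| ≤ δ a * n ∧
        ε / (2 * d) * √(n : ℝ) < |∑ k ∈ Finset.range j, Ψ a (envw ω u k) (u k) -
          ∑ k ∈ Finset.range j', Ψ a (envw ω u k) (u k)|} with hA
  set B : Fin d → Set (ℕ → Dir d) := fun a => {u | ∃ j ≤ T1 * n, ε / (4 * d) * √(n : ℝ) ≤
        |∑ k ∈ Finset.range j, (Phi a (envw ω u k) (u k) - Ψ a (envw ω u k) (u k))|} with hB
  have hsub : {u | ∃ s t : ℝ≥0, s ≤ T ∧ t ≤ T ∧ dist s t ≤ δ0 ∧
        ε < dist (path ω u n s) (path ω u n t)} ⊆ ⋃ a, (A a ∪ B a) := by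
    rintro u ⟨s, t, hs, ht, hst, hu⟩
    have hex : ∃ a, ε / d < |path ω u n s a - path ω u n t a| := by
      by_contra hc
      push Not at hc
      have h5 := dist_le_sum (path ω u n s) (path ω u n t)
      have h6 : ∑ a, |path ω u n s a - path ω u n t a| ≤ ∑ _a : Fin d, ε / d :=
        Finset.sum_le_sum fun a _ => hc a
      rw [Finset.sum_const, Finset.card_univ, Fintype.card_fin, nsmul_eq_mul,
        mul_div_cancel₀ _ hd.ne'] at h6
      linarith
    obtain ⟨a, ha⟩ := hex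
    rw [path_apply, path_apply, ← sub_div, abs_div, abs_of_pos hsn, lt_div_iff₀ hsn] at ha
    rw [Set.mem_iUnion]
    refine ⟨a, ?_⟩
    by_contra hc
    rw [Set.mem_union, not_or] at hc
    obtain ⟨hcA, hcB⟩ := hc
    simp only [hA, hB, Set.mem_ofPred_eq, not_exists, not_and, not_lt, not_le] at hcA hcB
    have hfs : (fl s n : ℝ) ≤ T1 * n := by
      have h5 := fl_le s n
      have h6 : (s : ℝ) ≤ T := by exact_mod_cast hs
      nlinarith
    have hft : (fl t n : ℝ) ≤ T1 * n := by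
      have h5 := fl_le t n
      have h6 : (t : ℝ) ≤ T := by exact_mod_cast ht
      nlinarith
    have hd1 : |(fl s n : ℝ) - fl t n| ≤ δ a * n := by
      have h5 := abs_fl_sub_le s t n
      have h6 := hδ1 a
      have h7 := h3 a
      nlinarith
    have e1 := hcA (fl s n) (fl t n) hfs hft hd1
    have e2 := hcB (fl s n) (by exact_mod_cast hfs)
    have e3 := hcB (fl t n) (by exact_mod_cast hft)
    rw [Finset.sum_sub_distrib] at e2 e3
    set x1 := ∑ k ∈ Finset.range (fl s n), Phi a (envw ω u k) (u k)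
    set x2 := ∑ k ∈ Finset.range (fl t n), Phi a (envw ω u k) (u k)
    set y1 := ∑ k ∈ Finset.range (fl s n), Ψ a (envw ω u k) (u k)
    set y2 := ∑ k ∈ Finset.range (fl t n), Ψ a (envw ω u k) (u k)
    have e4 : |x1 - x2| ≤ |y1 - y2| + |x1 - y1| + |x2 - y2| := by
      have h5 : x1 - x2 = (y1 - y2) + (x1 - y1) + -(x2 - y2) := by ring
      rw [h5]
      refine (abs_add_le _ _).trans ?_
      rw [abs_neg]
      have := abs_add_le (y1 - y2) (x1 - y1)
      linarith
    have e5 : ε / (2 * d) * √(n : ℝ) + ε / (4 * d) * √(n : ℝ) + ε / (4 * d) * √(n : ℝ) =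
        ε / d * √(n : ℝ) := by
      field_simp
      ring
    linarith
  have hreal : (unif (Dir d)).real (⋃ a, (A a ∪ B a)) ≤ η := by
    calc (unif (Dir d)).real (⋃ a, (A a ∪ B a))
        ≤ ∑ a, (unif (Dir d)).real (A a ∪ B a) := measureReal_iUnion_fintype_le _
      _ ≤ ∑ _a : Fin d, (η / (2 * d) + η / (2 * d)) := by
          refine Finset.sum_le_sum fun a _ => ?_
          refine (measureReal_union_le _ _).trans ?_
          exact add_le_add (h1 a) (h2 a).le
      _ = η := by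
          rw [Finset.sum_const, Finset.card_univ, Fintype.card_fin, nsmul_eq_mul]
          field_simp
          ring
  refine (measure_mono hsub).trans ?_
  rw [← ofReal_measureReal]
  exact ENNReal.ofReal_le_ofReal hreal

lemma convBM_of_typ (hStT : StmtT) (hG : StmtG) (hI : StmtI) (hM : StmtM)
    (hD : Dm.PosSemidef) : ConvBM Dm (fun n u => path ω u n) (unif (Dir d)) := by
  refine hI d Dm hD (ℕ → Dir d) (unif (Dir d)) (fun n u => path ω u n) ?_ ?_ ?_ ?_ ?_ ?_
  · intro n t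
    exact (path_dep ω n t).measurable
  · intro n u
    ext a
    rw [path_apply, fl_zero]
    simp
  · intro n u
    rcases Nat.eq_zero_or_pos n with h | h
    · subst h
      refine ⟨1, one_pos, fun _ => 0, fun t => ?_⟩
      ext a
      rw [path_apply]
      simp
    · refine ⟨(n : ℝ≥0), by exact_mod_cast h, fun k => WithLp.toLp 2 fun i =>
        (walk ω u k i : ℝ) / √(n : ℝ), fun t => rfl⟩
  · intro n F hF hFc
    exact (hM d ω n F hF hFc).aestronglyMeasurable
  · intro r t θ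
    exact fdd_fixed Ψ ω hT hG r t θ
  · intro T ε η hε hη
    exact tight_fixed Ψ ω hT hStT hG T ε η hε hη

end fixed

end Pool.Agent.Helper58.Qip
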