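import Pool.Agent.Helper58.Qip.Stmts

set_option autoImplicit false
set_option linter.unusedSectionVars false

/-!
Functions of finitely many i.i.d. uniform labels.
-/

open MeasureTheory ProbabilityTheory Filter Topology
open scoped ENNReal NNReal

namespace Pool.Agent.Helper58.Qip

variable {D : Type}

/-- `F` depends only on the first `n` coordinates. -/
def Dep {β : Type*} (n : ℕ) (F : (ℕ → D) → β) : Prop :=
  ∀ u u', (∀ i, i < n → u i = u' i) → F u = F u'

lemma Dep.mono {β : Type*} {n m : ℕ} (h : n ≤ m) {F : (ℕ → D) → β} (hF : Dep n F) : Dep m F :=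
  fun u u' hu => hF u u' fun i hi => hu i (lt_of_lt_of_le hi h)

lemma Dep.comp {β γ : Type*} {n : ℕ} {F : (ℕ → D) → β} (hF : Dep n F) (g : β → γ) :
    Dep n (fun u => g (F u)) := fun u u' hu => by
  simp only [hF u u' hu]

lemma Dep.comp₂ {β γ δ : Type*} {n : ℕ} {F : (ℕ → D) → β} {G : (ℕ → D) → γ} (hF : Dep n F)
    (hG : Dep n G) (g : β → γ → δ) : Dep n (fun u => g (F u) (G u)) := fun u u' hu => by
  simp only [hF u u' hu, hG u u' hu]

lemma Dep.const {β : Type*} (n : ℕ) (b : β) : Dep n (fun _ : ℕ → D => b) := fun _ _ _ => rfl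

lemma Dep.coord {n k : ℕ} (h : k < n) : Dep n (fun u : ℕ → D => u k) := fun _ _ hu => hu k h

lemma Dep.sum {ι : Type*} {n : ℕ} (s : Finset ι) {F : ι → (ℕ → D) → ℝ}
    (hF : ∀ i ∈ s, Dep n (F i)) : Dep n (fun u => ∑ i ∈ s, F i u) := fun u u' hu =>
  Finset.sum_congr rfl fun i hi => hF i hi u u' hu

variable [Fintype D] [Nonempty D] [MeasurableSpace D] [MeasurableSingletonClass D]

instance : IsProbabilityMeasure (uniformOn (Set.univ : Set D)) :=
  isProbabilityMeasure_uniformOn Set.finite_univ Set.univ_nonempty

instance : IsProbabilityMeasure (unif D) := by unfold unif; infer_instance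

lemma Dep.factor {β : Type*} {n : ℕ} {F : (ℕ → D) → β} (hF : Dep n F) :
    ∃ f : (Fin n → D) → β, F = fun u => f fun i => u i := by
  classical
  refine ⟨fun w => F fun i => if h : i < n then w ⟨i, h⟩ else Classical.arbitrary D, ?_⟩
  funext u
  apply hF
  intro i hi
  simp [hi]

lemma Dep.measurable {β : Type*} [MeasurableSpace β] {n : ℕ} {F : (ℕ → D) → β} (hF : Dep n F) :
    Measurable F := by
  obtain ⟨f, rfl⟩ := hF.factor
  exact (measurable_of_finite f).comp (measurable_pi_lambda _ fun i => measurable_pi_apply _)

lemma Dep.bdd {n : ℕ} {F : (ℕ → D) → ℝ} (hF : Dep n F) : ∃ C, ∀ u, |F u| ≤ C := by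
  obtain ⟨f, rfl⟩ := hF.factor
  obtain ⟨C, hC⟩ := (Set.finite_range fun w => |f w|).bddAbove
  exact ⟨C, fun u => hC ⟨_, rfl⟩⟩

lemma Dep.integrable {n : ℕ} {F : (ℕ → D) → ℝ} (hF : Dep n F) (μ : Measure (ℕ → D))
    [IsFiniteMeasure μ] : Integrable F μ := by
  obtain ⟨C, hC⟩ := hF.bdd
  exact Integrable.of_bound hF.measurable.aestronglyMeasurable C
    (Eventually.of_forall fun u => by simpa using hC u)

lemma integral_uniformOn (f : D → ℝ) :
    ∫ e, f e ∂(uniformOn (Set.univ : Set D)) = (∑ e, f e) / (Fintype.card D : ℝ) := by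
  rw [integral_fintype (Integrable.of_finite), Finset.sum_div]
  refine Finset.sum_congr rfl fun e _ => ?_
  have : (uniformOn (Set.univ : Set D)).real {e} = 1 / (Fintype.card D : ℝ) := by
    rw [measureReal_def, uniformOn_univ]
    simp
  rw [this, smul_eq_mul]
  ring

/-- Replacing coordinate `n` by an independent uniform one does not change the law. -/
lemma map_update (n : ℕ) :
    Measure.map (fun p : (ℕ → D) × D => Function.update p.1 n p.2)
      ((unif D).prod (uniformOn (Set.univ : Set D))) = unif D := by
  classical
  have hmeas : Measurable (fun p : (ℕ → D) × D => Function.update p.1 n p.2) := by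
    refine measurable_pi_lambda _ fun i => ?_
    by_cases h : i = n
    · subst h; simpa using measurable_snd
    · simp only [Function.update_of_ne h]
      exact (measurable_pi_apply i).comp measurable_fst
  unfold unif
  refine Measure.eq_infinitePi _ fun s t ht => ?_
  rw [Measure.map_apply hmeas (MeasurableSet.pi s.countable_toSet (fun i _ => ht i))]
  by_cases hn : n ∈ s
  · have : (fun p : (ℕ → D) × D => Function.update p.1 n p.2) ⁻¹' ((s : Set ℕ).pi t)
        = (((s.erase n : Finset ℕ) : Set ℕ).pi t) ×ˢ (t n) := by
      ext p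
      simp only [Set.mem_preimage, Set.mem_pi, Set.mem_prod, Finset.coe_erase, Set.mem_sdiff,
        Finset.mem_coe, Set.mem_singleton_iff]
      constructor
      · intro h
        refine ⟨fun i hi => ?_, ?_⟩
        · have := h i hi.1
          rwa [Function.update_of_ne hi.2] at this
        · simpa using h n hn
      · rintro ⟨h1, h2⟩ i hi
        by_cases hin : i = n
        · subst hin; simpa using h2
        · rw [Function.update_of_ne hin]; exact h1 i ⟨hi, hin⟩
    rw [this, Measure.prod_prod, Measure.infinitePi_pi _ (fun i _ => ht i),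
      Finset.prod_erase_mul _ _ hn]
  · have : (fun p : (ℕ → D) × D => Function.update p.1 n p.2) ⁻¹' ((s : Set ℕ).pi t)
        = ((s : Set ℕ).pi t) ×ˢ Set.univ := by
      ext p
      simp only [Set.mem_preimage, Set.mem_pi, Set.mem_prod, Finset.mem_coe, Set.mem_univ,
        and_true]
      constructor
      · intro h i hi
        have := h i hi
        have hin : i ≠ n := fun hin => hn (by rw [← hin]; exact hi)
        rwa [Function.update_of_ne hin] at this
      · intro h i hi
        have hin : i ≠ n := fun hin => hn (by rw [← hin]; exact hi)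
        rw [Function.update_of_ne hin]
        exact h i hi
    rw [this, Measure.prod_prod, Measure.infinitePi_pi _ (fun i _ => ht i), measure_univ, mul_one]

/-- Integrating out one coordinate. -/
lemma integral_update {F : (ℕ → D) → ℝ} {N : ℕ} (hF : Dep N F) (n : ℕ) :
    ∫ u, F u ∂unif D =
      ∫ u, (∑ e, F (Function.update u n e)) / (Fintype.card D : ℝ) ∂unif D := by
  have hmeas : Measurable (fun p : (ℕ → D) × D => Function.update p.1 n p.2) := by
    refine measurable_pi_lambda _ fun i => ?_
    by_cases h : i = n
    · subst h; simpa using measurable_snd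
    · simp only [Function.update_of_ne h]
      exact (measurable_pi_apply i).comp measurable_fst
  obtain ⟨C, hC⟩ := hF.bdd
  conv_lhs => rw [← map_update (D := D) n]
  rw [integral_map hmeas.aemeasurable hF.measurable.aestronglyMeasurable,
    integral_prod]
  · refine integral_congr_ae (Eventually.of_forall fun u => ?_)
    exact integral_uniformOn (fun e => F (Function.update u n e))
  · exact Integrable.of_bound (hF.measurable.comp hmeas).aestronglyMeasurable C
      (Eventually.of_forall fun u => by simpa using hC _)

/-- The one step identity. -/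
lemma integral_step {g : (ℕ → D) → D → ℝ} {k : ℕ} (hg : ∀ e, Dep k (fun u => g u e)) :
    ∫ u, g u (u k) ∂unif D = ∫ u, (∑ e, g u e) / (Fintype.card D : ℝ) ∂unif D := by
  have h1 : Dep (k + 1) (fun u => g u (u k)) := by
    intro u u' hu
    have h := hg (u k) u u' fun i hi => hu i (by omega)
    have hk := hu k (by omega)
    change g u (u k) = g u' (u' k)
    rw [← hk]
    exact h
  rw [integral_update h1 k]
  refine integral_congr_ae (Eventually.of_forall fun u => ?_)
  simp only [Function.update_self]
  congr 1
  refine Finset.sum_congr rfl fun e _ => ?_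
  exact hg e _ _ fun i hi => Function.update_of_ne (by omega) _ _

end Pool.Agent.Helper58.Qip
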